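import Mathlib

/-!
Primes `p ≡ 1 (mod 3)` are of the form `a² + ab + b²` (Thue).
-/

set_option autoImplicit false

namespace Pool.Agent.H41.Per

lemma exists_zeta {p : ℕ} (hp : p.Prime) (h3 : p % 3 = 1) :
    ∃ ζ : ZMod p, ζ ^ 2 + ζ + 1 = 0 := by
  have := Fact.mk hp
  have : Fact (Nat.Prime 3) := ⟨Nat.prime_three⟩
  have hcard : 3 ∣ Fintype.card (ZMod p)ˣ := by
    rw [ZMod.card_units]; omega
  obtain ⟨x, hx⟩ := exists_prime_orderOf_dvd_card 3 hcard
  have hx3 : x ^ 3 = 1 := by rw [← hx]; exact pow_orderOf_eq_one x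
  have hx1 : x ≠ 1 := by
    intro h
    rw [h, orderOf_one] at hx
    norm_num at hx
  refine ⟨(x : ZMod p), ?_⟩
  have hz3 : (x : ZMod p) ^ 3 = 1 := by
    rw [← Units.val_pow_eq_pow_val, hx3, Units.val_one]
  have hz1 : (x : ZMod p) - 1 ≠ 0 := by
    intro h
    apply hx1
    apply Units.ext
    rw [Units.val_one]
    exact sub_eq_zero.1 h
  have : ((x : ZMod p) - 1) * ((x : ZMod p) ^ 2 + x + 1) = 0 := by linear_combination hz3
  rcases mul_eq_zero.1 this with h | h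
  · exact absurd h hz1
  · exact h

lemma prime_norm {p : ℕ} (hp : p.Prime) (h3 : p % 3 = 1) :
    ∃ a b : ℤ, a ^ 2 + a * b + b ^ 2 = p := by
  have := Fact.mk hp
  obtain ⟨ζ, hζ⟩ := exists_zeta hp h3
  set s := Nat.sqrt p with hs
  have hcard : Fintype.card (ZMod p) < Fintype.card (Fin (s + 1) × Fin (s + 1)) := by
    rw [ZMod.card, Fintype.card_prod, Fintype.card_fin]
    exact Nat.lt_succ_sqrt p
  obtain ⟨⟨i, j⟩, ⟨i', j'⟩, hne, heq⟩ := Fintype.exists_ne_map_eq_of_card_lt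
    (fun q : Fin (s + 1) × Fin (s + 1) => ((q.1 : ℕ) : ZMod p) - ζ * ((q.2 : ℕ) : ZMod p)) hcard
  simp only at heq
  set a : ℤ := (i : ℕ) - (i' : ℕ) with ha
  set b : ℤ := (j : ℕ) - (j' : ℕ) with hb
  have hab : (a : ZMod p) = ζ * b := by
    rw [ha, hb]; push_cast; linear_combination heq
  have hdvd : (p : ℤ) ∣ a ^ 2 + a * b + b ^ 2 := by
    rw [← ZMod.intCast_zmod_eq_zero_iff_dvd]
    push_cast
    rw [hab]
    linear_combination (b : ZMod p) ^ 2 * hζ
  have hi := i.2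
  have hi' := i'.2
  have hj := j.2
  have hj' := j'.2
  have ha1 : a ≤ s := by omega
  have ha2 : -(s : ℤ) ≤ a := by omega
  have hb1 : b ≤ s := by omega
  have hb2 : -(s : ℤ) ≤ b := by omega
  have hsq : s * s < p := by
    rcases Nat.lt_or_eq_of_le (Nat.sqrt_le p) with h | h
    · exact h
    · exfalso
      have hsp : IsSquare p := ⟨s, h.symm⟩
      exact hp.prime.not_isSquare hsp
  have hsq' : (s : ℤ) * s < p := by exact_mod_cast hsq
  have hlt : a ^ 2 + a * b + b ^ 2 < 3 * p := by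
    have e1 : a ^ 2 ≤ s * s := by nlinarith
    have e2 : b ^ 2 ≤ s * s := by nlinarith
    have e3 : a * b ≤ s * s := by nlinarith [sq_nonneg (a - b)]
    linarith
  have hpos : 0 < a ^ 2 + a * b + b ^ 2 := by
    have hne0 : a ≠ 0 ∨ b ≠ 0 := by
      by_contra hcon
      push Not at hcon
      apply hne
      have h1 : i = i' := Fin.ext (by omega)
      have h2 : j = j' := Fin.ext (by omega)
      rw [h1, h2]
    rcases hne0 with h | h
    · have : 0 < a ^ 2 := by positivity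
      nlinarith [sq_nonneg (a + 2 * b)]
    · have : 0 < b ^ 2 := by positivity
      nlinarith [sq_nonneg (2 * a + b)]
  obtain ⟨c, hc⟩ := hdvd
  have hp0 : (0 : ℤ) < p := by exact_mod_cast hp.pos
  have hc1 : 0 < c := by
    by_contra h
    push Not at h
    nlinarith
  have hc2 : c < 3 := by
    by_contra h
    push Not at h
    nlinarith
  have hcc : c = 1 ∨ c = 2 := by omega
  rcases hcc with h | h
  · exact ⟨a, b, by rw [hc, h, mul_one]⟩
  · exfalso
    rw [h] at hc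
    have hp2 : p ≠ 2 := by rintro rfl; omega
    have hodd : p % 2 = 1 := (hp.eq_two_or_odd).resolve_left hp2
    have hE : (a ^ 2 + a * b + b ^ 2) % 2 = 0 := by rw [hc]; omega
    have ha' : a % 2 = 0 ∨ a % 2 = 1 := by omega
    have hb' : b % 2 = 0 ∨ b % 2 = 1 := by omega
    have hmod : (a ^ 2 + a * b + b ^ 2) % 2 = ((a % 2) ^ 2 + (a % 2) * (b % 2) + (b % 2) ^ 2) % 2 := by
      simp [Int.add_emod, Int.mul_emod, pow_two]
    rcases ha' with h1 | h1 <;> rcases hb' with h2 | h2 <;> rw [hmod, h1, h2] at hE <;>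
      norm_num at hE
    obtain ⟨a0, ha0⟩ : ∃ a0, a = 2 * a0 := ⟨a / 2, by omega⟩
    obtain ⟨b0, hb0⟩ : ∃ b0, b = 2 * b0 := ⟨b / 2, by omega⟩
    have : (p : ℤ) = 2 * (a0 ^ 2 + a0 * b0 + b0 ^ 2) := by
      rw [ha0, hb0] at hc
      linarith
    omega

end Pool.Agent.H41.Per
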