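import Mathlib

/-!
Completely multiplicative functions with values `±1`, extended to `ℚ`, and the associated function
`s` on nonzero vectors `x + y π₀` (`π₀ = 1 - ω`, norm form `x² + 3xy + 3y²`).
-/

set_option autoImplicit false

namespace Pool.Agent.H41.Per

/-- Completely multiplicative with values `±1` on the positive integers. -/
structure PM (g : ℕ → ℤ) : Prop where
  val : ∀ n, n ≠ 0 → g n = 1 ∨ g n = -1
  mul : ∀ a b, a ≠ 0 → b ≠ 0 → g (a * b) = g a * g b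

/-- The norm form. -/
def nm (v : ℚ × ℚ) : ℚ := v.1 ^ 2 + 3 * v.1 * v.2 + 3 * v.2 ^ 2

/-- Multiplication of `x + y π₀`. -/
def vmul (v w : ℚ × ℚ) : ℚ × ℚ := (v.1 * w.1 - 3 * v.2 * w.2, v.1 * w.2 + v.2 * w.1 + 3 * v.2 * w.2)

lemma nm_vmul (v w : ℚ × ℚ) : nm (vmul v w) = nm v * nm w := by
  simp only [nm, vmul]; ring

lemma nm_nonneg (v : ℚ × ℚ) : 0 ≤ nm v := by
  simp only [nm]; nlinarith [sq_nonneg (v.1 + 3 / 2 * v.2), sq_nonneg v.2]

lemma nm_eq_zero {v : ℚ × ℚ} (h : nm v = 0) : v = 0 := by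
  simp only [nm] at h
  have h2 : v.2 ^ 2 = 0 := by nlinarith [sq_nonneg (v.1 + 3 / 2 * v.2), sq_nonneg v.2]
  have h2' : v.2 = 0 := pow_eq_zero_iff (two_ne_zero) |>.1 h2
  rw [h2'] at h
  have h1 : v.1 ^ 2 = 0 := by nlinarith
  exact Prod.ext (pow_eq_zero_iff (two_ne_zero) |>.1 h1) h2'

lemma nm_ne_zero {v : ℚ × ℚ} (h : v ≠ 0) : nm v ≠ 0 := fun h0 => h (nm_eq_zero h0)

lemma vmul_ne_zero {v w : ℚ × ℚ} (hv : v ≠ 0) (hw : w ≠ 0) : vmul v w ≠ 0 := by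
  intro h
  have h1 := nm_vmul v w
  rw [h] at h1
  have h2 : nm (0 : ℚ × ℚ) = 0 := by simp [nm]
  rw [h2] at h1
  exact mul_ne_zero (nm_ne_zero hv) (nm_ne_zero hw) h1.symm

/-- Extension to `ℚ`. -/
def gQ (g : ℕ → ℤ) (q : ℚ) : ℤ := g q.num.natAbs * g q.den

/-- The function `s` on vectors. -/
def sv (g : ℕ → ℤ) (v : ℚ × ℚ) : ℤ := gQ g (nm v)

variable {g : ℕ → ℤ}

lemma PM.sq (hg : PM g) {n : ℕ} (hn : n ≠ 0) : g n * g n = 1 := by
  rcases hg.val n hn with h | h <;> rw [h] <;> norm_num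

lemma gQ_div (hg : PM g) {a b : ℤ} (ha : a ≠ 0) (hb : b ≠ 0) :
    gQ g ((a : ℚ) / b) = g a.natAbs * g b.natAbs := by
  set q : ℚ := (a : ℚ) / b with hq
  have hb' : (b : ℚ) ≠ 0 := by exact_mod_cast hb
  have ha' : (a : ℚ) ≠ 0 := by exact_mod_cast ha
  have hq0 : q ≠ 0 := div_ne_zero ha' hb'
  have hden : (q.den : ℚ) ≠ 0 := by exact_mod_cast q.den_ne_zero
  have h1 : (q.num : ℚ) * b = a * q.den := by
    have h2 : (q.num : ℚ) / q.den = (a : ℚ) / b := by rw [Rat.num_div_den]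
    field_simp at h2
    linarith
  have h3 : q.num * b = a * q.den := by exact_mod_cast h1
  have h4 : q.num.natAbs * b.natAbs = a.natAbs * q.den := by
    have := congrArg Int.natAbs h3
    rwa [Int.natAbs_mul, Int.natAbs_mul, Int.natAbs_natCast] at this
  have hn : q.num.natAbs ≠ 0 := by
    rw [Int.natAbs_ne_zero]; exact Rat.num_ne_zero.2 hq0
  have hbn : b.natAbs ≠ 0 := Int.natAbs_ne_zero.2 hb
  have han : a.natAbs ≠ 0 := Int.natAbs_ne_zero.2 ha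
  have h5 := congrArg g h4
  rw [hg.mul _ _ hn hbn, hg.mul _ _ han q.den_ne_zero] at h5
  have e1 := hg.sq hbn
  have e2 := hg.sq q.den_ne_zero
  unfold gQ
  calc g q.num.natAbs * g q.den
      = (g q.num.natAbs * g b.natAbs) * (g b.natAbs * g q.den) := by
        linear_combination (-(g q.num.natAbs) * g q.den) * e1
    _ = (g a.natAbs * g q.den) * (g b.natAbs * g q.den) := by rw [h5]
    _ = g a.natAbs * g b.natAbs := by
        linear_combination (g a.natAbs * g b.natAbs) * e2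

lemma gQ_mul (hg : PM g) {x y : ℚ} (hx : x ≠ 0) (hy : y ≠ 0) :
    gQ g (x * y) = gQ g x * gQ g y := by
  have hxd : (x.den : ℤ) ≠ 0 := by exact_mod_cast x.den_ne_zero
  have hyd : (y.den : ℤ) ≠ 0 := by exact_mod_cast y.den_ne_zero
  have hxn : x.num ≠ 0 := Rat.num_ne_zero.2 hx
  have hyn : y.num ≠ 0 := Rat.num_ne_zero.2 hy
  have h1 : x * y = ((x.num * y.num : ℤ) : ℚ) / ((x.den * y.den : ℤ) : ℚ) := by
    push_cast
    rw [← div_mul_div_comm, Rat.num_div_den, Rat.num_div_den]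
  rw [h1, gQ_div hg (mul_ne_zero hxn hyn) (mul_ne_zero hxd hyd)]
  rw [Int.natAbs_mul, Int.natAbs_mul, Int.natAbs_natCast, Int.natAbs_natCast,
    hg.mul _ _ (Int.natAbs_ne_zero.2 hxn) (Int.natAbs_ne_zero.2 hyn),
    hg.mul _ _ x.den_ne_zero y.den_ne_zero]
  unfold gQ
  ring

lemma gQ_self (hg : PM g) {x : ℚ} (hx : x ≠ 0) : gQ g x * gQ g x = 1 := by
  unfold gQ
  have e1 := hg.sq (Int.natAbs_ne_zero.2 (Rat.num_ne_zero.2 hx))
  have e2 := hg.sq x.den_ne_zero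
  linear_combination (g x.den * g x.den) * e1 + e2

lemma gQ_sq (hg : PM g) {x : ℚ} (hx : x ≠ 0) : gQ g (x ^ 2) = 1 := by
  rw [pow_two, gQ_mul hg hx hx, gQ_self hg hx]

lemma gQ_int (hg : PM g) {a : ℤ} (ha : a ≠ 0) : gQ g (a : ℚ) = g a.natAbs := by
  have h := gQ_div hg ha (one_ne_zero : (1 : ℤ) ≠ 0)
  have h1 : g 1 = 1 := by
    have := hg.mul 1 1 one_ne_zero one_ne_zero
    rcases hg.val 1 one_ne_zero with h | h
    · exact h
    · rw [mul_one, h] at this; norm_num at this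
  simpa [h1] using h

lemma sv_mul (hg : PM g) {v w : ℚ × ℚ} (hv : v ≠ 0) (hw : w ≠ 0) :
    sv g (vmul v w) = sv g v * sv g w := by
  unfold sv
  rw [nm_vmul, gQ_mul hg (nm_ne_zero hv) (nm_ne_zero hw)]

lemma sv_self (hg : PM g) {v : ℚ × ℚ} (hv : v ≠ 0) : sv g v * sv g v = 1 :=
  gQ_self hg (nm_ne_zero hv)

lemma sv_smul (hg : PM g) {c : ℚ} (hc : c ≠ 0) {v : ℚ × ℚ} (hv : v ≠ 0) :
    sv g (c * v.1, c * v.2) = sv g v := by
  have h : nm (c * v.1, c * v.2) = c ^ 2 * nm v := by simp only [nm]; ring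
  unfold sv
  rw [h, gQ_mul hg (pow_ne_zero 2 hc) (nm_ne_zero hv), gQ_sq hg hc, one_mul]

lemma sv_neg (v : ℚ × ℚ) : sv g (-v.1, -v.2) = sv g v := by
  unfold sv nm
  congr 1
  ring

end Pool.Agent.H41.Per
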