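import Pool.Agent.H41.Per.Remove2

/-!
From the rigidity statement to a Dirichlet character, and the converse.
-/

set_option autoImplicit false

namespace Pool.Agent.H41.Per

variable {g : ℕ → ℤ}

lemma isNm_prime {p : ℕ} (hp : p.Prime) (h3 : p % 3 = 1) : IsNm p := by
  obtain ⟨a, b, h⟩ := prime_norm hp h3
  exact ⟨a, b, h.symm⟩

lemma exists_prime_class {N : ℕ} [NeZero N] (h3N : 3 ∣ N) (c : (ZMod N)ˣ) :
    ∃ p : ℕ, p.Prime ∧ p % 3 = 1 ∧ ∃ ε : ℤ, (ε = 1 ∨ ε = -1) ∧ (p : ZMod N) = ε * c := by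
  obtain ⟨p, hp3, hp, hpc⟩ := Nat.forall_exists_prime_gt_and_eq_mod (q := N) (a := (c : ZMod N)) c.isUnit 3
  obtain ⟨q, hq3, hq, hqc⟩ := Nat.forall_exists_prime_gt_and_eq_mod (q := N) (a := ((-c : (ZMod N)ˣ) : ZMod N))
    (-c).isUnit 3
  have h1 : p % 3 ≠ 0 := by
    intro h
    have := (Nat.prime_dvd_prime_iff_eq Nat.prime_three hp).1 (Nat.dvd_of_mod_eq_zero h)
    omega
  by_cases h : p % 3 = 1
  · exact ⟨p, hp, h, 1, Or.inl rfl, by rw [hpc]; push_cast; ring⟩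
  · refine ⟨q, hq, ?_, -1, Or.inr rfl, by rw [hqc]; push_cast; ring⟩
    have h2 : ((p + q : ℕ) : ZMod N) = 0 := by
      push_cast; rw [hpc, hqc]; push_cast; ring
    rw [ZMod.natCast_eq_zero_iff] at h2
    obtain ⟨e, he⟩ := h3N.trans h2
    omega

/-- Rigidity hypothesis. -/
def Rigid (g : ℕ → ℤ) (N : ℕ) : Prop :=
  ∀ n : ℕ, IsNm n → Nat.Coprime n N → (∃ r : ℤ, (N : ℤ) ∣ n - r ^ 2) → g n = 1

lemma rigid_apply {N : ℕ} (h3N : 3 ∣ N) (hR : Rigid g N) {n : ℕ} (hn : IsNm n)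
    (hcop : Nat.Coprime n N) (h1 : n % 3 = 1) {ε : ℤ} (hε : ε = 1 ∨ ε = -1) {r : ℤ}
    (hr : (n : ZMod N) = ε * (r : ZMod N) ^ 2) : g n = 1 := by
  refine hR n hn hcop ⟨r, ?_⟩
  have h2 : (N : ℤ) ∣ n - ε * r ^ 2 := by
    rw [← ZMod.intCast_zmod_eq_zero_iff_dvd]
    push_cast
    rw [hr]; ring
  rcases hε with rfl | rfl
  · simpa using h2
  · exfalso
    have h3N' : (3 : ℤ) ∣ N := by exact_mod_cast h3N
    obtain ⟨c, hc⟩ := h3N'.trans h2
    have h3 : r % 3 = 0 ∨ r % 3 = 1 ∨ r % 3 = 2 := by omega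
    have h4 : (n : ℤ) % 3 = 1 := by omega
    have h5 : r ^ 2 % 3 = 0 ∨ r ^ 2 % 3 = 1 := by
      rcases h3 with h | h | h <;> simp [pow_two, Int.mul_emod, h]
    omega

lemma coprime_of_class {N p : ℕ} {c : (ZMod N)ˣ} {ε : ℤ} (hε : ε = 1 ∨ ε = -1)
    (h : (p : ZMod N) = ε * c) : Nat.Coprime p N := by
  rw [← ZMod.isUnit_iff_coprime, h]
  rcases hε with rfl | rfl
  · simp
  · push_cast
    rw [neg_one_mul]
    exact c.isUnit.neg

theorem char_of_rigid (hg : PM g) {N : ℕ} (hN : N ≠ 0) (h3N : 3 ∣ N)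
    (hNp : ∀ p, p.Prime → p ∣ N → p % 3 ≠ 1) (hR : Rigid g N) :
    ∃ χ : DirichletCharacter ℤ N, ∀ p, p.Prime → p % 3 = 1 → g p = χ p := by
  classical
  have : NeZero N := ⟨hN⟩
  choose P hP using fun c : (ZMod N)ˣ => exists_prime_class h3N c
  have hPp : ∀ c, (P c).Prime := fun c => (hP c).1
  have hP1 : ∀ c, P c % 3 = 1 := fun c => (hP c).2.1
  have hPc : ∀ c, ∃ ε : ℤ, (ε = 1 ∨ ε = -1) ∧ (P c : ZMod N) = ε * c := fun c => (hP c).2.2
  have hcop : ∀ c, Nat.Coprime (P c) N := by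
    intro c
    obtain ⟨ε, hε, h⟩ := hPc c
    exact coprime_of_class hε h
  let φ0 : (ZMod N)ˣ → ℤˣ := fun c => if g (P c) = 1 then 1 else -1
  have hφ0 : ∀ c, ((φ0 c : ℤˣ) : ℤ) = g (P c) := by
    intro c
    simp only [φ0]
    split_ifs with h
    · rw [h]; rfl
    · rcases hg.val (P c) (hPp c).ne_zero with h1 | h1
      · exact absurd h1 h
      · rw [h1]; rfl
  have hmul : ∀ a b, φ0 (a * b) = φ0 a * φ0 b := by
    intro a b
    apply Units.ext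
    rw [Units.val_mul, hφ0, hφ0, hφ0]
    obtain ⟨ε₁, hε₁, h1⟩ := hPc a
    obtain ⟨ε₂, hε₂, h2⟩ := hPc b
    obtain ⟨ε₃, hε₃, h3⟩ := hPc (a * b)
    have hn : g (P a * P b * P (a * b)) = 1 := by
      refine rigid_apply h3N hR (ε := ε₁ * ε₂ * ε₃) (r := (((a * b : (ZMod N)ˣ) : ZMod N).val : ℤ))
        ?_ ?_ ?_ ?_ ?_
      · push_cast
        exact ((isNm_prime (hPp a) (hP1 a)).mul (isNm_prime (hPp b) (hP1 b))).mul
          (isNm_prime (hPp _) (hP1 _))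
      · exact Nat.Coprime.mul_left (Nat.Coprime.mul_left (hcop a) (hcop b)) (hcop _)
      · simp [Nat.mul_mod, hP1]
      · rcases hε₁ with rfl | rfl <;> rcases hε₂ with rfl | rfl <;> rcases hε₃ with rfl | rfl <;>
          norm_num
      · push_cast
        rw [h1, h2, h3, ZMod.natCast_zmod_val]
        push_cast
        ring
    rw [hg.mul _ _ (mul_ne_zero (hPp a).ne_zero (hPp b).ne_zero) (hPp _).ne_zero,
      hg.mul _ _ (hPp a).ne_zero (hPp b).ne_zero] at hn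
    rcases hg.val (P a) (hPp a).ne_zero with e1 | e1 <;>
      rcases hg.val (P b) (hPp b).ne_zero with e2 | e2 <;>
      rcases hg.val (P (a * b)) (hPp _).ne_zero with e3 | e3 <;>
      rw [e1, e2, e3] at hn ⊢ <;> revert hn <;> decide
  let φ : (ZMod N)ˣ →* ℤˣ := MonoidHom.mk' φ0 hmul
  refine ⟨MulChar.ofUnitHom φ, ?_⟩
  intro p hp hp3
  have hpN : Nat.Coprime p N := by
    rw [hp.coprime_iff_not_dvd]
    intro h
    exact hNp p hp h hp3
  have h1 : (p : ZMod N) = ((ZMod.unitOfCoprime p hpN : (ZMod N)ˣ) : ZMod N) := by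
    rw [ZMod.coe_unitOfCoprime]
  obtain ⟨u, hu⟩ : ∃ u, u = ZMod.unitOfCoprime p hpN := ⟨_, rfl⟩
  rw [← hu] at h1
  rw [h1, MulChar.ofUnitHom_coe]
  change g p = ((φ0 u : ℤˣ) : ℤ)
  rw [hφ0]
  obtain ⟨ε, hε, h2⟩ := hPc u
  have hn : g (p * P u) = 1 := by
    refine rigid_apply h3N hR (ε := ε) (r := (p : ℤ)) ?_ ?_ ?_ hε ?_
    · push_cast
      exact (isNm_prime hp hp3).mul (isNm_prime (hPp u) (hP1 u))
    · exact Nat.Coprime.mul_left hpN (hcop u)
    · simp [Nat.mul_mod, hP1, hp3]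
    · push_cast
      rw [h2, h1]
      ring
  rw [hg.mul _ _ hp.ne_zero (hPp u).ne_zero] at hn
  rcases hg.val p hp.ne_zero with e1 | e1 <;>
    rcases hg.val (P u) (hPp u).ne_zero with e2 | e2 <;>
    rw [e1, e2] at hn ⊢ <;> revert hn <;> decide

lemma PM.one (hg : PM g) : g 1 = 1 := by
  have := hg.mul 1 1 one_ne_zero one_ne_zero
  rcases hg.val 1 one_ne_zero with h | h
  · exact h
  · rw [mul_one, h] at this; norm_num at this

lemma eq_char (hg : PM g) {M : ℕ} (χ : DirichletCharacter ℤ M)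
    (hχ : ∀ p, p.Prime → p % 3 = 1 → g p = χ p) {n : ℕ} (hn : n ≠ 0)
    (h : ∀ p, p.Prime → p ∣ n → p % 3 = 1) : g n = χ n := by
  induction n using induction_on_primes with
  | zero => exact absurd rfl hn
  | one => rw [hg.one]; simp
  | prime_mul p n hp ih =>
    have hn' : n ≠ 0 := by rintro rfl; simp at hn
    rw [hg.mul _ _ hp.ne_zero hn', hχ p hp (h p hp (dvd_mul_right _ _)),
      ih hn' (fun q hq hd => h q hq (hd.mul_left p))]
    push_cast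
    rw [map_mul]

theorem evPer_of_char (hg : PM g) {M : ℕ} (χ : DirichletCharacter ℤ M)
    (hχ : ∀ p, p.Prime → p % 3 = 1 → g p = χ p) : EvPer g M := by
  have h1 : ∀ k : ℕ, g (3 * k ^ 2 + 3 * k + 1) = χ ((3 * k ^ 2 + 3 * k + 1 : ℕ) : ZMod M) := by
    intro k
    refine eq_char hg χ hχ (by positivity) ?_
    intro p hp hd
    refine prime_dvd_fz hp (k := k) ?_
    have : fz (k : ℤ) = ((3 * k ^ 2 + 3 * k + 1 : ℕ) : ℤ) := by unfold fz; push_cast; ring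
    rw [this]
    exact_mod_cast hd
  refine ⟨0, fun k _ => ?_⟩
  rw [h1, h1]
  congr 1
  push_cast
  simp

theorem classification (hg : PM g) : (∃ m : ℕ, 0 < m ∧ EvPer g m) ↔
    ∃ M : ℕ, 0 < M ∧ ∃ χ : DirichletCharacter ℤ M, ∀ p, p.Prime → p % 3 = 1 → g p = χ p := by
  constructor
  · rintro ⟨m, hm, h⟩
    obtain ⟨Q, m₀, hQm, hQ, hm₀⟩ := split_primes (fun p => p % 3 = 1) m hm.ne'
    have hm₀0 : m₀ ≠ 0 := by rintro rfl; simp at hQm; omega
    have hQ0 : Q ≠ 0 := by rintro rfl; simp at hQm; omega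
    have h3m₀ : ∀ p, p.Prime → p ∣ 3 * m₀ → p % 3 ≠ 1 := by
      intro p hp hd
      rcases hp.dvd_mul.1 hd with h1 | h1
      · rw [(Nat.prime_dvd_prime_iff_eq hp Nat.prime_three).1 h1]; norm_num
      · exact hm₀ p hp h1
    have hper := perInt_of_evPer hg hm h
    have hQm' : m = m₀ * Q := by rw [hQm]; ring
    rw [hQm'] at hper
    refine ⟨3 * m₀, by omega, ?_⟩
    refine char_of_rigid hg (by omega) (dvd_mul_right 3 m₀) h3m₀ ?_
    rintro n hn hc ⟨r, hr⟩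
    refine remove hg hm₀0 hQ0 hm₀ hQ hper hn hc (r := r) ?_
    push_cast at hr
    exact hr
  · rintro ⟨M, hM, χ, hχ⟩
    exact ⟨M, hM, evPer_of_char hg χ hχ⟩

end Pool.Agent.H41.Per
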