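import Mathlib

/-!
Every value `3k²+3k+1` (`k ∈ ℤ`) is, up to a square factor, again a value at arbitrarily large
`k' ≡ k (mod m)`.
-/

set_option autoImplicit false

namespace Pool.Agent.H41.Per

lemma not_isSquare_aux (k : ℤ) : ¬ IsSquare (12 * (3 * k ^ 2 + 3 * k + 1)) := by
  rintro ⟨e, he⟩
  have h3 : (3 : ℤ) ∣ e * e := ⟨4 * (3 * k ^ 2 + 3 * k + 1), by rw [← he]; ring⟩
  have h3' : (3 : ℤ) ∣ e := by
    rcases (Int.prime_three.dvd_mul).1 h3 with h | h <;> exact h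
  obtain ⟨f, rfl⟩ := h3'
  have h4 : 4 * (3 * k ^ 2 + 3 * k + 1) = 3 * (f * f) := by linarith
  have h5 : (4 * (3 * k ^ 2 + 3 * k + 1)) % 3 = 1 := by
    have : 4 * (3 * k ^ 2 + 3 * k + 1) = 1 + 3 * (4 * k ^ 2 + 4 * k + 1) := by ring
    omega
  rw [h4] at h5
  omega

lemma not_isSquare_mul (k c : ℤ) (hc : c ≠ 0) :
    ¬ IsSquare (12 * (3 * k ^ 2 + 3 * k + 1) * c ^ 2) := by
  rintro ⟨e, he⟩
  have h1 : c ^ 2 ∣ e ^ 2 := ⟨12 * (3 * k ^ 2 + 3 * k + 1), by rw [pow_two e, ← he]; ring⟩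
  have h2 : c ∣ e := (Int.pow_dvd_pow_iff two_ne_zero).1 h1
  obtain ⟨f, rfl⟩ := h2
  apply not_isSquare_aux k
  refine ⟨f, ?_⟩
  have h3 : c ^ 2 * (12 * (3 * k ^ 2 + 3 * k + 1)) = c ^ 2 * (f * f) := by linarith
  exact mul_left_cancel₀ (pow_ne_zero 2 hc) h3

lemma f_pos (k : ℤ) : 0 < 3 * k ^ 2 + 3 * k + 1 := by nlinarith [sq_nonneg (2 * k + 1)]

lemma pell_large (k m : ℤ) (hm : 0 < m) (B : ℤ) :
    ∃ k' z : ℤ, B ≤ k' ∧ m ∣ k' - k ∧ z ≠ 0 ∧
      3 * k' ^ 2 + 3 * k' + 1 = (3 * k ^ 2 + 3 * k + 1) * z ^ 2 := by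
  set D : ℤ := 3 * k ^ 2 + 3 * k + 1 with hD
  have hDpos : 0 < D := f_pos k
  set L : ℤ := max 1 (B - k) with hL
  have hL1 : 1 ≤ L := le_max_left _ _
  have hLB : B - k ≤ L := le_max_right _ _
  have hc0 : 6 * m * L ≠ 0 := by positivity
  have hns := not_isSquare_mul k (6 * m * L) hc0
  have hpos : 0 < 12 * (3 * k ^ 2 + 3 * k + 1) * (6 * m * L) ^ 2 := by
    have := f_pos k
    positivity
  obtain ⟨x, y, hxy, hy⟩ := Pell.exists_of_not_isSquare hpos hns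
  rw [← hD] at hxy
  set a : ℤ := |x| with ha
  set c : ℤ := L * |y| with hc
  have hy1 : 1 ≤ |y| := Int.one_le_abs hy
  have hcL : L ≤ c := by rw [hc]; nlinarith
  have hc1 : 1 ≤ c := le_trans hL1 hcL
  have ha0 : 0 ≤ a := abs_nonneg x
  have ha2 : a ^ 2 = 1 + 12 * D * (36 * m ^ 2 * c ^ 2) := by
    have h1 : a ^ 2 = x ^ 2 := sq_abs x
    have h2 : |y| ^ 2 = y ^ 2 := sq_abs y
    rw [h1, hc, mul_pow, h2]
    linarith
  set X : ℤ := 6 * k + 3 with hX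
  have hX2 : X ^ 2 = 12 * D - 3 := by rw [hX, hD]; ring
  have hkey : 1 ≤ a + 6 * m * c * X := by
    by_contra hcon
    have h1 : a ≤ -(6 * m * c * X) := by linarith [Int.lt_iff_add_one_le.1 (not_le.1 hcon)]
    have h2 : a ^ 2 ≤ (6 * m * c * X) ^ 2 := by nlinarith
    have h3 : (6 * m * c * X) ^ 2 = 36 * m ^ 2 * c ^ 2 * (12 * D - 3) := by
      rw [← hX2]; ring
    have h4 : 0 < m ^ 2 * c ^ 2 := by positivity
    nlinarith
  have hval : 3 * (k + m * (24 * D * c * (a + 6 * m * c * X))) ^ 2 +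
      3 * (k + m * (24 * D * c * (a + 6 * m * c * X))) + 1 =
      D * (1 + 24 * D * (36 * m ^ 2 * c ^ 2) + 12 * a * m * c * X) ^ 2 := by
    have h12 : 12 * (3 * (k + m * (24 * D * c * (a + 6 * m * c * X))) ^ 2 +
      3 * (k + m * (24 * D * c * (a + 6 * m * c * X))) + 1) =
      12 * (D * (1 + 24 * D * (36 * m ^ 2 * c ^ 2) + 12 * a * m * c * X) ^ 2) := by
      have e1 : 12 * (3 * (k + m * (24 * D * c * (a + 6 * m * c * X))) ^ 2 +
        3 * (k + m * (24 * D * c * (a + 6 * m * c * X))) + 1) =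
        (X + 6 * m * (24 * D * c * (a + 6 * m * c * X))) ^ 2 + 3 := by rw [hX]; ring
      rw [e1]
      clear_value X D a c
      linear_combination (-1728 * D * (m * c) ^ 2 * (X ^ 2 - 12 * D)) * ha2 + hX2
    linarith
  refine ⟨k + m * (24 * D * c * (a + 6 * m * c * X)), 1 + 24 * D * (36 * m ^ 2 * c ^ 2) +
    12 * a * m * c * X, ?_, ⟨24 * D * c * (a + 6 * m * c * X), by ring⟩, ?_, hval⟩
  · have h1 : 1 ≤ D := hDpos
    have h2 : 1 ≤ m := hm
    have h3 : c ≤ D * c := le_mul_of_one_le_left (by linarith) h1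
    have h30 : 0 ≤ D * c := by linarith
    have h4 : D * c ≤ D * c * (a + 6 * m * c * X) := le_mul_of_one_le_right h30 hkey
    have h6 : 0 ≤ D * c * (a + 6 * m * c * X) := by linarith
    have h5 : D * c * (a + 6 * m * c * X) ≤ m * (D * c * (a + 6 * m * c * X)) :=
      le_mul_of_one_le_left h6 h2
    have h7 : m * (24 * D * c * (a + 6 * m * c * X)) =
        24 * (m * (D * c * (a + 6 * m * c * X))) := by ring
    rw [h7]
    linarith
  · intro hz
    rw [hz] at hval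
    have := f_pos (k + m * (24 * D * c * (a + 6 * m * c * X)))
    rw [hval] at this
    simp at this

end Pool.Agent.H41.Per
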