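import Pool.Agent.H41.Per.Basic
import Pool.Agent.H41.Per.Pell

/-!
If `g(3k²+3k+1)` has period `m` in `k ∈ ℤ`, then `s(x, y + m x) = s(x, y)` for all vectors.
-/

set_option autoImplicit false

namespace Pool.Agent.H41.Per

variable {g : ℕ → ℤ}

/-- The polynomial on `ℤ`, as a rational number. -/
def fQ (k : ℤ) : ℚ := 3 * (k : ℚ) ^ 2 + 3 * (k : ℚ) + 1

lemma fQ_pos (k : ℤ) : 0 < fQ k := by
  have := f_pos k
  unfold fQ
  exact_mod_cast this

/-- Periodicity of `g(f(k))` over all integers. -/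
def PerInt (g : ℕ → ℤ) (m : ℤ) : Prop := ∀ k : ℤ, gQ g (fQ (k + m)) = gQ g (fQ k)

lemma PerInt.mul {m : ℤ} (h : PerInt g m) (k j : ℤ) : gQ g (fQ (k + m * j)) = gQ g (fQ k) := by
  induction j using Int.induction_on with
  | zero => simp
  | succ i ih =>
    have : k + m * (i + 1) = (k + m * i) + m := by ring
    rw [this, h, ih]
  | pred i ih =>
    have := h (k + m * (-i - 1))
    rw [← this]
    have e : k + m * (-(i:ℤ) - 1) + m = k + m * (-i) := by ring
    rw [e, ih]

lemma iv_ne_zero {x y : ℤ} (h : IsCoprime x y) : ((x : ℚ), (y : ℚ)) ≠ 0 := by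
  intro h0
  rw [Prod.mk_eq_zero] at h0
  have h1 : x = 0 := by exact_mod_cast h0.1
  have h2 : y = 0 := by exact_mod_cast h0.2
  rw [h1, h2] at h
  obtain ⟨a, b, hab⟩ := h
  simp at hab

lemma edge_val (hg : PM g) {x' y z t D : ℤ} (hD : y * z - t * (3 * x') = D) (hD1 : D = 1 ∨ D = -1)
    (hv : (((3 * x' : ℤ) : ℚ), (y : ℚ)) ≠ 0) (hw : ((z : ℚ), (t : ℚ)) ≠ 0) :
    sv g (((3 * x' : ℤ) : ℚ), (y : ℚ)) * sv g ((z : ℚ), (t : ℚ)) =
      gQ g 3 * gQ g (fQ (D * (x' * z + y * t + 3 * x' * t))) := by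
  have h1 : nm (((3 * x' : ℤ) : ℚ), (y : ℚ)) * nm ((z : ℚ), (t : ℚ)) =
      3 * fQ (D * (x' * z + y * t + 3 * x' * t)) := by
    simp only [nm, fQ]
    have hD2 : (D : ℚ) ^ 2 = 1 := by rcases hD1 with h | h <;> rw [h] <;> norm_num
    have hD' : (D : ℚ) = y * z - t * (3 * x') := by rw [← hD]; push_cast; ring
    push_cast
    have e : 3 * (3 * ((D:ℚ) * (x' * z + y * t + 3 * x' * t)) ^ 2 +
        3 * (D * (x' * z + y * t + 3 * x' * t)) + 1) =
        9 * ((D:ℚ)^2) * (x' * z + y * t + 3 * x' * t) ^ 2 +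
        9 * D * (x' * z + y * t + 3 * x' * t) + 3 := by ring
    rw [e, hD2]
    have e3 : (3:ℚ) = 3 * (D:ℚ)^2 := by rw [hD2]; ring
    have : 9 * 1 * ((x':ℚ) * z + y * t + 3 * x' * t) ^ 2 +
        9 * D * (x' * z + y * t + 3 * x' * t) + 3 = 9 * ((x':ℚ) * z + y * t + 3 * x' * t) ^ 2 +
        9 * D * (x' * z + y * t + 3 * x' * t) + 3 * (D:ℚ)^2 := by rw [hD2]; ring
    rw [this, hD']
    ring
  unfold sv
  rw [← gQ_mul hg (nm_ne_zero hv) (nm_ne_zero hw), h1, gQ_mul hg (by norm_num) (fQ_pos _).ne']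

/-- Invariance of `s` at `(x, y)` under `y ↦ y + m x`. -/
def Good (g : ℕ → ℤ) (m x y : ℤ) : Prop :=
  sv g ((x : ℚ), ((y + m * x : ℤ) : ℚ)) = sv g ((x : ℚ), (y : ℚ))

lemma good_zero (m y : ℤ) : Good g m 0 y := by simp [Good]

lemma edge_good (hg : PM g) {m : ℤ} (hp : PerInt g m) {x y z t : ℤ} (h3 : 3 ∣ x)
    (hD : y * z - t * x = 1 ∨ y * z - t * x = -1) : Good g m x y ↔ Good g m z t := by
  obtain ⟨x', rfl⟩ := h3
  have hc1 : IsCoprime (3 * x') y := by
    rcases hD with h | h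
    · exact ⟨-t, z, by linarith⟩
    · exact ⟨t, -z, by linarith⟩
  have hc2 : IsCoprime z t := by
    rcases hD with h | h
    · exact ⟨y, -(3 * x'), by linarith⟩
    · exact ⟨-y, 3 * x', by linarith⟩
  have hc3 : IsCoprime (3 * x') (y + m * (3 * x')) := by
    rw [add_comm]; exact (IsCoprime.mul_add_left_right_iff (z := m)).2 hc1 |> fun h => by
      simpa [mul_comm] using h
  have hc4 : IsCoprime z (t + m * z) := by
    rw [add_comm]; exact (IsCoprime.mul_add_left_right_iff (z := m)).2 hc2 |> fun h => by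
      simpa [mul_comm] using h
  obtain ⟨D, hDe⟩ : ∃ D, y * z - t * (3 * x') = D := ⟨_, rfl⟩
  have hD1 : D = 1 ∨ D = -1 := by rw [← hDe]; exact hD
  have e1 := edge_val hg hDe hD1 (iv_ne_zero hc1) (iv_ne_zero hc2)
  have hDe' : (y + m * (3 * x')) * z - (t + m * z) * (3 * x') = D := by rw [← hDe]; ring
  have e2 := edge_val hg hDe' hD1 (iv_ne_zero hc3) (iv_ne_zero hc4)
  have e3 : D * (x' * z + (y + m * (3 * x')) * (t + m * z) + 3 * x' * (t + m * z)) =
      D * (x' * z + y * t + 3 * x' * t) + m * (D * (y * z + 3 * x' * t + 3 * m * x' * z +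
        3 * x' * z)) := by ring
  rw [e3, hp.mul, ← e1] at e2
  have s1 := sv_self hg (iv_ne_zero hc1)
  have s2 := sv_self hg (iv_ne_zero hc2)
  have s3 := sv_self hg (iv_ne_zero hc3)
  have s4 := sv_self hg (iv_ne_zero hc4)
  unfold Good
  set A := sv g (((3 * x' : ℤ) : ℚ), (y : ℚ))
  set B := sv g ((z : ℚ), (t : ℚ))
  set A' := sv g (((3 * x' : ℤ) : ℚ), ((y + m * (3 * x') : ℤ) : ℚ))
  set B' := sv g ((z : ℚ), ((t + m * z : ℤ) : ℚ))
  constructor
  · intro h
    rw [h] at e2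
    have : A * (A * B') = A * (A * B) := by rw [e2]
    rw [← mul_assoc, ← mul_assoc, s1, one_mul, one_mul] at this
    exact this
  · intro h
    rw [h] at e2
    have : A' * B * B = A * B * B := by rw [e2]
    rw [mul_assoc, mul_assoc, s2, mul_one, mul_one] at this
    exact this

lemma centered (z x : ℤ) (hx : x ≠ 0) : ∃ i : ℤ, 2 * |z + x * i| ≤ |x| := by
  have hM : 0 < |x| := abs_pos.2 hx
  set M := |x| with hMd
  have h1 := Int.emod_nonneg (2 * z + M) (by omega : 2 * M ≠ 0)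
  have h2 := Int.emod_lt_of_pos (2 * z + M) (by omega : 0 < 2 * M)
  have h3 := Int.emod_add_mul_ediv (2 * z + M) (2 * M)
  set q := (2 * z + M) / (2 * M)
  set r := (2 * z + M) % (2 * M)
  have h4 : 2 * |z - M * q| ≤ M := by
    have e : 2 * (z - M * q) = r - M := by linarith
    have : |2 * (z - M * q)| ≤ M := by
      rw [e, abs_le]; constructor <;> linarith
    rwa [abs_mul, abs_of_pos (by norm_num : (0:ℤ) < 2)] at this
  rcases abs_choice x with h | h
  · refine ⟨-q, ?_⟩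
    have : z + x * -q = z - M * q := by rw [hMd, h]; ring
    rw [this]; exact h4
  · refine ⟨q, ?_⟩
    have : z + x * q = z - M * q := by rw [hMd, h]; ring
    rw [this]; exact h4

lemma good_of_coprime (hg : PM g) {m : ℤ} (hp : PerInt g m) :
    ∀ n : ℕ, ∀ x y : ℤ, x.natAbs = n → IsCoprime x y → Good g m x y := by
  intro n
  induction n using Nat.strong_induction_on with
  | _ n ih =>
    intro x y hxn hc
    by_cases hx0 : x = 0
    · rw [hx0]; exact good_zero m y
    have hxa : (x.natAbs : ℤ) = |x| := Int.natCast_natAbs x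
    have hxpos : 0 < |x| := abs_pos.2 hx0
    obtain ⟨u, v, huv⟩ := hc
    -- `u x + v y = 1`; take `z = v`, `t = -u`
    by_cases h3 : (3 : ℤ) ∣ x
    · obtain ⟨i, hi⟩ := centered v x hx0
      have hdet : y * (v + x * i) - (-u + y * i) * x = 1 := by linear_combination huv
      rw [edge_good hg hp h3 (Or.inl hdet)]
      refine ih (v + x * i).natAbs ?_ _ _ rfl ⟨y, -x, by linear_combination hdet⟩
      have : ((v + x * i).natAbs : ℤ) = |v + x * i| := Int.natCast_natAbs _
      omega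
    · -- choose `j` with `3 ∣ v + x j`
      obtain ⟨j, hj⟩ : ∃ j : ℤ, (3 : ℤ) ∣ v + x * j := by
        have hx3 : x % 3 = 1 ∨ x % 3 = 2 := by omega
        have hv3 : v % 3 = 0 ∨ v % 3 = 1 ∨ v % 3 = 2 := by omega
        have hmod : ∀ j : ℤ, (v + x * j) % 3 = (v % 3 + (x % 3) * (j % 3)) % 3 := by
          intro j
          rw [Int.add_emod, Int.mul_emod]; simp [Int.add_emod, Int.mul_emod]
        rcases hx3 with h | h <;> rcases hv3 with h' | h' | h'
        · exact ⟨0, Int.dvd_of_emod_eq_zero (by rw [hmod, h, h']; norm_num)⟩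
        · exact ⟨2, Int.dvd_of_emod_eq_zero (by rw [hmod, h, h']; norm_num)⟩
        · exact ⟨1, Int.dvd_of_emod_eq_zero (by rw [hmod, h, h']; norm_num)⟩
        · exact ⟨0, Int.dvd_of_emod_eq_zero (by rw [hmod, h, h']; norm_num)⟩
        · exact ⟨1, Int.dvd_of_emod_eq_zero (by rw [hmod, h, h']; norm_num)⟩
        · exact ⟨2, Int.dvd_of_emod_eq_zero (by rw [hmod, h, h']; norm_num)⟩
      obtain ⟨i, hi⟩ := centered (v + x * j) (3 * x) (by omega)
      set z : ℤ := v + x * j + 3 * x * i with hz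
      set t : ℤ := -u + y * j + 3 * y * i with ht
      have hdet : y * z - t * x = 1 := by rw [hz, ht]; linear_combination huv
      have h3z : (3 : ℤ) ∣ z := by
        rw [hz]; exact dvd_add hj ⟨x * i, by ring⟩
      have hdet' : t * x - y * z = -1 := by linarith
      rw [← edge_good hg hp h3z (Or.inr hdet')]
      by_cases hz0 : z = 0
      · rw [hz0]; exact good_zero m t
      -- neighbour of `(z, t)`: `(x, y) + (z, t) l`
      obtain ⟨l, hl⟩ := centered x z hz0
      have hdet2 : t * (x + z * l) - (y + t * l) * z = -1 := by linear_combination hdet'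
      rw [edge_good hg hp h3z (Or.inr hdet2)]
      refine ih (x + z * l).natAbs ?_ _ _ rfl ⟨-t, z, by linear_combination (-1) * hdet2⟩
      have e1 : ((x + z * l).natAbs : ℤ) = |x + z * l| := Int.natCast_natAbs _
      have e2 : |3 * x| = 3 * |x| := by rw [abs_mul]; norm_num
      rw [e2] at hi
      omega

end Pool.Agent.H41.Per
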