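import Pool.Agent.H41.Per.Descent

/-!
The group of rational `t` with `s(x, y + t x) = s(x, y)` is closed under division by
`1 - 3z + 3z²` (`z` in the group), in particular by primes `p ≡ 1 (mod 3)` not dividing `m`.
-/

set_option autoImplicit false

namespace Pool.Agent.H41.Per

variable {g : ℕ → ℤ}

/-- `s` is invariant under `y ↦ y + t x`. -/
def Per (g : ℕ → ℤ) (t : ℚ) : Prop :=
  ∀ x y : ℚ, (x, y) ≠ 0 → sv g (x, y + t * x) = sv g (x, y)

lemma shear_ne {x y t : ℚ} (h : (x, y) ≠ 0) : (x, y + t * x) ≠ 0 := by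
  intro h0
  rw [Prod.mk_eq_zero] at h0
  apply h
  rw [Prod.mk_eq_zero]
  refine ⟨h0.1, ?_⟩
  have := h0.2
  rw [h0.1] at this
  simpa using this

lemma Per.zero : Per g 0 := by intro x y _; simp

lemma Per.add {s t : ℚ} (hs : Per g s) (ht : Per g t) : Per g (s + t) := by
  intro x y h
  have e : y + (s + t) * x = (y + s * x) + t * x := by ring
  rw [e, ht _ _ (shear_ne h), hs _ _ h]

lemma Per.neg {t : ℚ} (ht : Per g t) : Per g (-t) := by
  intro x y h
  have := ht x (y + -t * x) (shear_ne h)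
  rw [← this]
  congr 2
  ring

lemma Per.zmul {t : ℚ} (ht : Per g t) (n : ℤ) : Per g (n * t) := by
  induction n using Int.induction_on with
  | zero => simpa using Per.zero
  | succ i ih =>
    have := ih.add ht
    convert this using 1
    push_cast; ring
  | pred i ih =>
    have := ih.add ht.neg
    convert this using 1
    push_cast; ring

lemma per_of_int (hg : PM g) {m : ℤ} (hp : PerInt g m) : Per g (m : ℚ) := by
  intro x y h
  -- clear denominators
  have hxd : (x.den : ℚ) ≠ 0 := by exact_mod_cast x.den_ne_zero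
  have hyd : (y.den : ℚ) ≠ 0 := by exact_mod_cast y.den_ne_zero
  set a : ℤ := x.num * y.den with ha
  set b : ℤ := y.num * x.den with hb
  set n : ℚ := (x.den : ℚ) * y.den with hn
  have hn0 : n ≠ 0 := mul_ne_zero hxd hyd
  have hxa : x = a / n := by
    rw [ha, hn]; push_cast
    have := Rat.num_div_den x
    field_simp
    rw [eq_comm]
    calc (x.num : ℚ) = (x.num / x.den) * x.den := by field_simp
      _ = x * x.den := by rw [this]
  have hyb : y = b / n := by
    rw [hb, hn]; push_cast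
    have := Rat.num_div_den y
    field_simp
    rw [eq_comm]
    calc (y.num : ℚ) = (y.num / y.den) * y.den := by field_simp
      _ = y * y.den := by rw [this]
  have hab : a ≠ 0 ∨ b ≠ 0 := by
    by_contra hcon
    push Not at hcon
    apply h
    rw [hxa, hyb, hcon.1, hcon.2]
    simp
  have hd0 : (Int.gcd a b : ℤ) ≠ 0 := by
    intro h0
    have : Int.gcd a b = 0 := by exact_mod_cast h0
    rw [Int.gcd_eq_zero_iff] at this
    rcases hab with h1 | h1
    · exact h1 this.1
    · exact h1 this.2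
  obtain ⟨a', ha'⟩ := Int.gcd_dvd_left a b
  obtain ⟨b', hb'⟩ := Int.gcd_dvd_right a b
  set d : ℤ := (Int.gcd a b : ℤ) with hd
  have hcop : IsCoprime a' b' := by
    obtain ⟨u, v, huv⟩ : ∃ u v, u * a + v * b = d := ⟨Int.gcdA a b, Int.gcdB a b, by
      rw [hd, Int.gcd_eq_gcd_ab]; ring⟩
    refine ⟨u, v, ?_⟩
    have : d * (u * a' + v * b') = d * 1 := by
      rw [mul_one]
      calc d * (u * a' + v * b') = u * (d * a') + v * (d * b') := by ring
        _ = u * a + v * b := by rw [← ha', ← hb']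
        _ = d := huv
    exact mul_left_cancel₀ hd0 this
  have hgood := good_of_coprime hg hp a'.natAbs a' b' rfl hcop
  unfold Good at hgood
  have hd0' : (d : ℚ) ≠ 0 := by exact_mod_cast hd0
  have hc : (d : ℚ) / n ≠ 0 := div_ne_zero hd0' hn0
  have e1 := sv_smul hg hc (iv_ne_zero hcop)
  have hcop' : IsCoprime a' (b' + m * a') := by
    obtain ⟨u, v, huv⟩ := hcop
    exact ⟨u - v * m, v, by linear_combination huv⟩
  have e2 := sv_smul hg hc (iv_ne_zero hcop')
  have f1 : (x, y) = ((d : ℚ) / n * a', (d : ℚ) / n * b') := by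
    rw [hxa, hyb, ha', hb']
    push_cast
    refine Prod.ext ?_ ?_ <;> simp only <;> ring
  have f2 : (x, y + (m : ℚ) * x) = ((d : ℚ) / n * a', (d : ℚ) / n * ((b' + m * a' : ℤ) : ℚ)) := by
    rw [hxa, hyb, ha', hb']
    push_cast
    refine Prod.ext ?_ ?_ <;> simp only <;> ring
  rw [f1, f2]
  simp only at e1 e2
  rw [e1, e2]
  exact hgood

/-- The transposed invariance. -/
lemma Per.V (hg : PM g) {t : ℚ} (ht : Per g t) {x y : ℚ} (h : (x, y) ≠ 0) :
    sv g (x - 3 * t * y, y) = sv g (x, y) := by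
  -- multiplication by `3 - π₀`
  have hgam : ((3 : ℚ), (-1 : ℚ)) ≠ 0 := by
    intro h0; rw [Prod.mk_eq_zero] at h0; norm_num at h0
  have hw : ((-y : ℚ), (x + 3 * y) / 3) ≠ 0 := by
    intro h0
    rw [Prod.mk_eq_zero] at h0
    apply h
    rw [Prod.mk_eq_zero]
    have h1 : y = 0 := by linarith [h0.1]
    refine ⟨?_, h1⟩
    have := h0.2
    rw [h1] at this
    linarith
  have h1 := ht _ _ hw
  have e1 := sv_mul hg hgam hw
  have e2 := sv_mul hg hgam (shear_ne (t := t) hw)
  have f1 : vmul (3, -1) (-y, (x + 3 * y) / 3) = (x, y) := by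
    simp only [vmul]; refine Prod.ext ?_ ?_ <;> simp only <;> ring
  have f2 : vmul (3, -1) (-y, (x + 3 * y) / 3 + t * -y) = (x - 3 * t * y, y) := by
    simp only [vmul]; refine Prod.ext ?_ ?_ <;> simp only <;> ring
  rw [f1] at e1
  rw [f2] at e2
  rw [e2, h1, ← e1]

lemma Per.div (hg : PM g) {y z : ℚ} (hy : Per g y) (hz : Per g z) :
    Per g (y / (1 - 3 * z + 3 * z ^ 2)) := by
  intro X Y h
  set N : ℚ := 1 - 3 * z + 3 * z ^ 2 with hN
  have hNpos : 0 < N := by rw [hN]; nlinarith [sq_nonneg (2 * z - 1)]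
  have hN0 : N ≠ 0 := hNpos.ne'
  have hgam : ((1 - 3 * z : ℚ), z) ≠ 0 := by
    intro h0
    rw [Prod.mk_eq_zero] at h0
    have h1 := h0.1
    rw [h0.2] at h1
    norm_num at h1
  -- the vector `(X, N Y - z X)`
  have hW : (X, N * Y - z * X) ≠ 0 := by
    intro h0
    rw [Prod.mk_eq_zero] at h0
    apply h
    rw [Prod.mk_eq_zero]
    refine ⟨h0.1, ?_⟩
    have h1 := h0.2
    rw [h0.1] at h1
    have : N * Y = 0 := by linarith
    rcases mul_eq_zero.1 this with h2 | h2
    · exact absurd h2 hN0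
    · exact h2
  have hXY : (X, Y + y / N * X) ≠ 0 := shear_ne h
  have s1 := sv_smul hg hN0 hXY
  have s1' : sv g (N * X, N * Y + y * X) = sv g (X, Y + y / N * X) := by
    rw [← s1]
    congr 2
    field_simp
  have hNX : (N * X, N * Y + y * X) ≠ 0 := by
    intro h0
    rw [Prod.mk_eq_zero] at h0
    have h1 : X = 0 := by
      rcases mul_eq_zero.1 h0.1 with h2 | h2
      · exact absurd h2 hN0
      · exact h2
    have h2 := h0.2
    rw [h1] at h2
    have h3 : N * Y = 0 := by linarith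
    rcases mul_eq_zero.1 h3 with h4 | h4
    · exact hN0 h4
    · exact h (by rw [h1, h4]; rfl)
  have s2 := hz.V hg hNX
  have s3 := sv_mul hg hgam (shear_ne (t := y) hW)
  have f3 : vmul (1 - 3 * z, z) (X, N * Y - z * X + y * X) =
      (N * X - 3 * z * (N * Y + y * X), N * Y + y * X) := by
    simp only [vmul]; refine Prod.ext ?_ ?_
    · simp only; rw [hN]; ring
    · simp only; ring
  rw [f3] at s3
  have s4 := hy _ _ hW
  have s5 := sv_mul hg hgam hW
  have f5 : vmul (1 - 3 * z, z) (X, N * Y - z * X) = (N * (X - 3 * z * Y), N * Y) := by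
    simp only [vmul]; refine Prod.ext ?_ ?_
    · simp only; rw [hN]; ring
    · simp only; ring
  rw [f5] at s5
  have hV : (X - 3 * z * Y, Y) ≠ 0 := by
    intro h0
    rw [Prod.mk_eq_zero] at h0
    apply h
    rw [Prod.mk_eq_zero]
    have h1 := h0.1
    rw [h0.2] at h1
    exact ⟨by linarith, h0.2⟩
  have s6 := sv_smul hg hN0 hV
  simp only at s6
  have s7 := hz.V hg h
  rw [← s1', ← s2, s3, s4, ← s5, s6, s7]

lemma exists_root {p : ℕ} (hp : p.Prime) (h3 : p % 3 = 1) {m : ℤ} (hm : ¬ (p : ℤ) ∣ m) :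
    ∃ j : ℤ, (p : ℤ) ∣ 1 - 3 * (m * j) + 3 * (m * j) ^ 2 := by
  haveI := Fact.mk hp
  haveI : Fact (Nat.Prime 3) := ⟨Nat.prime_three⟩
  have hcard : 3 ∣ Fintype.card (ZMod p)ˣ := by
    rw [ZMod.card_units]; omega
  obtain ⟨x, hx⟩ := exists_prime_orderOf_dvd_card 3 hcard
  have hx3 : x ^ 3 = 1 := by rw [← hx]; exact pow_orderOf_eq_one x
  have hx1 : x ≠ 1 := by
    intro h
    rw [h, orderOf_one] at hx
    norm_num at hx
  set ζ : ZMod p := (x : ZMod p) with hζ
  have hz3 : ζ ^ 3 = 1 := by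
    rw [hζ, ← Units.val_pow_eq_pow_val, hx3, Units.val_one]
  have hz1 : ζ - 1 ≠ 0 := by
    intro h
    apply hx1
    apply Units.ext
    rw [Units.val_one]
    exact sub_eq_zero.1 h
  have hz : ζ ^ 2 + ζ + 1 = 0 := by
    have : (ζ - 1) * (ζ ^ 2 + ζ + 1) = 0 := by linear_combination hz3
    rcases mul_eq_zero.1 this with h | h
    · exact absurd h hz1
    · exact h
  have h30 : (3 : ZMod p) ≠ 0 := by
    intro h
    have : ((3 : ℕ) : ZMod p) = 0 := by exact_mod_cast h
    rw [ZMod.natCast_eq_zero_iff] at this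
    have := (Nat.prime_dvd_prime_iff_eq hp Nat.prime_three).1 this
    omega
  have hm0 : (m : ZMod p) ≠ 0 := by
    intro h
    exact hm ((ZMod.intCast_zmod_eq_zero_iff_dvd m p).1 h)
  set j : ZMod p := (1 - ζ) / 3 / m with hj
  obtain ⟨j', hj'⟩ := ZMod.intCast_surjective j
  refine ⟨j', ?_⟩
  rw [← ZMod.intCast_zmod_eq_zero_iff_dvd]
  push_cast
  rw [hj', hj]
  have e : (m : ZMod p) * ((1 - ζ) / 3 / m) = (1 - ζ) / 3 := by field_simp
  rw [e]
  field_simp
  linear_combination hz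

lemma Per.prime (hg : PM g) {m : ℤ} (hm : Per g (m : ℚ)) {t : ℚ} (ht : Per g t) {p : ℕ}
    (hp : p.Prime) (h3 : p % 3 = 1) (hpm : ¬ (p : ℤ) ∣ m) : Per g (t / p) := by
  obtain ⟨j, c, hc⟩ := exists_root hp h3 hpm
  have hz : Per g ((j : ℚ) * m) := hm.zmul j
  have h1 := ht.div hg hz
  have h2 := h1.zmul c
  have hp0 : (p : ℚ) ≠ 0 := by exact_mod_cast hp.ne_zero
  have hF : (1 - 3 * ((j : ℚ) * m) + 3 * ((j : ℚ) * m) ^ 2) = p * c := by
    have : ((1 - 3 * (m * j) + 3 * (m * j) ^ 2 : ℤ) : ℚ) = ((p * c : ℤ) : ℚ) := by rw [hc]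
    push_cast at this
    linarith
  have hF0 : (1 - 3 * ((j : ℚ) * m) + 3 * ((j : ℚ) * m) ^ 2) ≠ 0 := by
    have : 0 < 1 - 3 * ((j : ℚ) * m) + 3 * ((j : ℚ) * m) ^ 2 := by
      nlinarith [sq_nonneg (2 * ((j : ℚ) * m) - 1)]
    exact this.ne'
  have hc0 : (c : ℚ) ≠ 0 := by
    intro h; rw [h, mul_zero] at hF; exact hF0 hF
  rw [hF] at h2
  convert h2 using 1
  field_simp

end Pool.Agent.H41.Per
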