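import Pool.Agent.H41.Per.Triv

/-!
Hilbert 90 step: if the norm `n` of `(c, d)` is prime to `3m` and a square modulo `3m`, then
`s(c, d) = 1`.
-/

set_option autoImplicit false

namespace Pool.Agent.H41.Per

variable {g : ℕ → ℤ}

/-- Integral norm form. -/
def nmZ (a b : ℤ) : ℤ := a ^ 2 + 3 * a * b + 3 * b ^ 2

/-- Case `θ = 1`: if `ℓ` divides the norm of `(r + c, d)`, then `ℓ` divides both coordinates. -/
lemma hil1 {l c d r : ℤ} (hl : Prime l) (h3 : ¬ l ∣ 3) (h2' : ¬ l ∣ r)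
    (hn : l ∣ nmZ c d - r ^ 2) (h : l ∣ nmZ (r + c) d) : l ∣ r + c ∧ l ∣ d := by
  obtain ⟨u, hu⟩ := hn
  obtain ⟨v, hv⟩ := h
  simp only [nmZ] at hu hv
  -- `r (2(r+c) + 3 d)` is divisible by `l`
  have h1 : l ∣ r * (2 * (r + c) + 3 * d) := ⟨v - u, by linear_combination hv - hu⟩
  have h2 : l ∣ 2 * (r + c) + 3 * d := (hl.dvd_mul.1 h1).resolve_left h2'
  obtain ⟨w, hw⟩ := h2
  have h4 : l ∣ 3 * (d * d) := ⟨4 * v - w * (2 * (r + c) + 3 * d), by
    linear_combination 4 * hv - (2 * (r + c) + 3 * d) * hw⟩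
  have h5 : l ∣ d * d := (hl.dvd_mul.1 h4).resolve_left h3
  have h6 : l ∣ d := by rcases hl.dvd_mul.1 h5 with h | h <;> exact h
  refine ⟨?_, h6⟩
  obtain ⟨e, he⟩ := h6
  have h7 : l ∣ (r + c) * (r + c) := ⟨v - 3 * (r + c) * e - 3 * e * d, by
    rw [he] at hv ⊢; linear_combination hv⟩
  rcases hl.dvd_mul.1 h7 with h | h <;> exact h

/-- Case `θ = π₀`. -/
lemma hil2 {l c d r : ℤ} (hl : Prime l) (h3 : ¬ l ∣ 3) (h2' : ¬ l ∣ r)
    (hn : l ∣ nmZ c d - r ^ 2) (h : l ∣ nmZ (3 * (c + d)) (r - c)) : l ∣ r - c ∧ l ∣ c + d := by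
  obtain ⟨u, hu⟩ := hn
  obtain ⟨v, hv⟩ := h
  simp only [nmZ] at hu hv
  -- `B² + 3 B E + 3 E²` divisible by `l`, `B = r - c`, `E = c + d`
  have h1 : l ∣ 3 * ((r - c) ^ 2 + 3 * (r - c) * (c + d) + 3 * (c + d) ^ 2) :=
    ⟨v, by linear_combination hv⟩
  have h2 := (hl.dvd_mul.1 h1).resolve_left h3
  obtain ⟨w, hw⟩ := h2
  have h4 : l ∣ r * (2 * (r - c) + 3 * (c + d)) := ⟨w - u, by linear_combination hw - hu⟩
  have h5 : l ∣ 2 * (r - c) + 3 * (c + d) := (hl.dvd_mul.1 h4).resolve_left h2'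
  obtain ⟨x, hx⟩ := h5
  have h6 : l ∣ 3 * ((c + d) * (c + d)) := ⟨4 * w - x * (2 * (r - c) + 3 * (c + d)), by
    linear_combination 4 * hw - (2 * (r - c) + 3 * (c + d)) * hx⟩
  have h7 : l ∣ (c + d) * (c + d) := (hl.dvd_mul.1 h6).resolve_left h3
  have h8 : l ∣ c + d := by rcases hl.dvd_mul.1 h7 with h | h <;> exact h
  refine ⟨?_, h8⟩
  obtain ⟨e, he⟩ := h8
  have h9 : l ∣ (r - c) * (r - c) := ⟨w - 3 * (r - c) * e - 3 * e * (c + d), by
    rw [he] at hw ⊢; linear_combination hw⟩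
  rcases hl.dvd_mul.1 h9 with h | h <;> exact h

lemma exists_theta {c d r M : ℤ} (hM : M ≠ 0) (hcop : IsCoprime (nmZ c d) M)
    (hn : M ∣ nmZ c d - r ^ 2) (h3 : (3 : ℤ) ∣ r - c) :
    ∃ u v : ℤ, IsCoprime (nmZ ((r + c) * u + 3 * (c + d) * v) (d * u + (r - c) * v)) M := by
  classical
  -- basic facts at a prime
  have hrM : ∀ l : ℤ, Prime l → l ∣ M → ¬ l ∣ nmZ c d ∧ ¬ l ∣ r := by
    intro l hl hlM
    have h1 : ¬ l ∣ nmZ c d := fun h => hl.not_isUnit (hcop.isUnit_of_dvd' h hlM)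
    refine ⟨h1, fun h => h1 ?_⟩
    have h2 : l ∣ nmZ c d - r ^ 2 := hlM.trans hn
    have h3 : l ∣ r ^ 2 := dvd_pow h two_ne_zero
    have := dvd_add h2 h3
    simpa using this
  set P := M.natAbs.primeFactors with hP
  set A : ℤ := nmZ (r + c) d with hA
  set u : ℕ := ∏ l ∈ P.filter (fun l : ℕ => (l : ℤ) ∣ A), l with hu
  set v : ℕ := ∏ l ∈ P.filter (fun l : ℕ => ¬ (l : ℤ) ∣ A), l with hv
  refine ⟨u, v, ?_⟩
  rw [Int.isCoprime_iff_gcd_eq_one]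
  by_contra hne
  obtain ⟨l, hlp, hld⟩ := Nat.exists_prime_and_dvd hne
  have hlP : Prime (l : ℤ) := Nat.prime_iff_prime_int.1 hlp
  have hl1 : (l : ℤ) ∣ nmZ ((r + c) * u + 3 * (c + d) * v) (d * u + (r - c) * v) :=
    (Int.natCast_dvd_natCast.2 hld).trans (Int.gcd_dvd_left _ _)
  have hlM : (l : ℤ) ∣ M := (Int.natCast_dvd_natCast.2 hld).trans (Int.gcd_dvd_right _ _)
  have hlmem : l ∈ P := by
    rw [hP, Nat.mem_primeFactors]
    exact ⟨hlp, Int.natCast_dvd.1 hlM, Int.natAbs_ne_zero.2 hM⟩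
  obtain ⟨hln, hlr⟩ := hrM l hlP hlM
  -- divisibility of `u`, `v` by `l`
  have hprod : ∀ S : Finset ℕ, S ⊆ P → ((l : ℤ) ∣ ((∏ x ∈ S, x : ℕ) : ℤ) ↔ l ∈ S) := by
    intro S hS
    rw [Int.natCast_dvd_natCast]
    constructor
    · intro h
      obtain ⟨x, hx, hlx⟩ := (Prime.dvd_finsetProd_iff hlp.prime _).1 h
      have hxp : x.Prime := Nat.prime_of_mem_primeFactors (hS hx)
      rw [(Nat.prime_dvd_prime_iff_eq hlp hxp).1 hlx]
      exact hx
    · intro h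
      exact Finset.dvd_prod_of_mem _ h
  have hu' := hprod _ (Finset.filter_subset (fun l : ℕ => (l : ℤ) ∣ A) P)
  have hv' := hprod _ (Finset.filter_subset (fun l : ℕ => ¬ (l : ℤ) ∣ A) P)
  rw [← hu, Finset.mem_filter] at hu'
  rw [← hv, Finset.mem_filter] at hv'
  by_cases hlA : (l : ℤ) ∣ A
  · -- `l ∣ u`, `l ∤ v`
    obtain ⟨u', hu1⟩ := hu'.2 ⟨hlmem, hlA⟩
    have hv1 : ¬ (l : ℤ) ∣ (v : ℤ) := fun h => (hv'.1 h).2 hlA
    have h3' : ¬ (l : ℤ) ∣ 3 := by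
      intro h
      -- then `l = 3`, `A ≡ (r+c)² ≡ 4 c² (mod 3)`
      have h31 : l ∣ 3 := by exact_mod_cast h
      have hl3 : l = 3 := (Nat.prime_dvd_prime_iff_eq hlp Nat.prime_three).1 h31
      rw [hl3] at hlA hln
      obtain ⟨x, hx⟩ := hlA
      obtain ⟨y, hy⟩ := h3
      apply hln
      push_cast at hx
      have hc2 : (3 : ℤ) ∣ 4 * (c * c) := ⟨x - (4 * c * y + 3 * y ^ 2) - (r + c) * d - d ^ 2, by
        have hr : r = c + 3 * y := by linarith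
        simp only [hA, nmZ] at hx
        rw [hr] at hx ⊢
        linear_combination hx⟩
      have hc3 : (3 : ℤ) ∣ c * c := by omega
      have hc4 : (3 : ℤ) ∣ c := by rcases Int.prime_three.dvd_mul.1 hc3 with h | h <;> exact h
      obtain ⟨z, hz⟩ := hc4
      exact ⟨3 * z ^ 2 + c * d + d ^ 2, by simp only [nmZ]; rw [hz]; push_cast; ring⟩
    obtain ⟨hA1, hA2⟩ := hil1 hlP h3' hlr (hlM.trans hn) hlA
    have hB : (l : ℤ) ∣ (v : ℤ) * ((v : ℤ) * nmZ (3 * (c + d)) (r - c)) := by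
      obtain ⟨x, hx⟩ := hl1
      refine ⟨x - u' * ((r + c) * ((r + c) * u + 3 * (c + d) * v) + (r + c) * (3 * (c + d) * v)
        + 3 * ((r + c) * (d * u + (r - c) * v) + d * (3 * (c + d) * v))
        + 3 * (d * (d * u + (r - c) * v) + d * ((r - c) * v))), ?_⟩
      simp only [nmZ] at hx ⊢
      linear_combination hx - (((r + c) * ((r + c) * u + 3 * (c + d) * v) + (r + c) * (3 * (c + d) * v)
        + 3 * ((r + c) * (d * u + (r - c) * v) + d * (3 * (c + d) * v))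
        + 3 * (d * (d * u + (r - c) * v) + d * ((r - c) * v)))) * hu1
    have hB2 := ((hlP.dvd_mul.1 hB).resolve_left hv1)
    have hB3 := ((hlP.dvd_mul.1 hB2).resolve_left hv1)
    obtain ⟨hB4, hB5⟩ := hil2 hlP h3' hlr (hlM.trans hn) hB3
    -- `l ∣ d` and `l ∣ c + d`, so `l ∣ c`, contradiction
    have hcl : (l : ℤ) ∣ c := by
      have := dvd_sub hB5 hA2
      simpa using this
    apply hln
    obtain ⟨x, hx⟩ := hcl
    obtain ⟨y, hy⟩ := hA2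
    exact ⟨x * c + 3 * x * d + 3 * y * d, by simp only [nmZ]; rw [hx, hy]; ring⟩
  · -- `l ∣ v`, `l ∤ u`
    obtain ⟨v', hv1⟩ := hv'.2 ⟨hlmem, hlA⟩
    have hu1 : ¬ (l : ℤ) ∣ (u : ℤ) := fun h => hlA (hu'.1 h).2
    have hB : (l : ℤ) ∣ (u : ℤ) * ((u : ℤ) * A) := by
      obtain ⟨x, hx⟩ := hl1
      refine ⟨x - v' * (3 * (c + d) * ((r + c) * u + 3 * (c + d) * v) + (r + c) * u * (3 * (c + d))
        + 3 * (3 * (c + d) * (d * u + (r - c) * v) + (r + c) * u * (r - c))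
        + 3 * ((r - c) * (d * u + (r - c) * v) + d * u * (r - c))), ?_⟩
      simp only [nmZ, hA] at hx ⊢
      linear_combination hx - ((3 * (c + d) * ((r + c) * u + 3 * (c + d) * v) + (r + c) * u * (3 * (c + d))
        + 3 * (3 * (c + d) * (d * u + (r - c) * v) + (r + c) * u * (r - c))
        + 3 * ((r - c) * (d * u + (r - c) * v) + d * u * (r - c)))) * hv1
    have hB2 := ((hlP.dvd_mul.1 hB).resolve_left hu1)
    have hB3 := ((hlP.dvd_mul.1 hB2).resolve_left hu1)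
    exact hlA hB3

end Pool.Agent.H41.Per
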