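import Pool.Agent.H41.Per.Main

/-!
The Liouville function of `3k²+3k+1` is not eventually periodic.
-/

set_option autoImplicit false

namespace Pool.Agent.H41.Per

/-- The Liouville function. -/
def lio (n : ℕ) : ℤ := (-1) ^ (ArithmeticFunction.cardFactors n)

lemma lio_pm : PM lio where
  val n _ := neg_one_pow_eq_or ℤ _
  mul a b ha hb := by
    unfold lio
    rw [ArithmeticFunction.cardFactors_mul ha hb, pow_add]

lemma lio_prime {p : ℕ} (hp : p.Prime) : lio p = -1 := by
  unfold lio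
  rw [ArithmeticFunction.cardFactors_apply_prime hp, pow_one]

lemma lio_not_evPer {m : ℕ} (hm : 0 < m) : ¬ EvPer lio m := by
  intro h
  have hq : (3 * m : ℕ) ≠ 0 := by omega
  obtain ⟨p, -, hp, hpa⟩ := Nat.forall_exists_prime_gt_and_zmodEq 0 hq (isCoprime_one_left : IsCoprime (1 : ℤ) _)
  have h1 : ((3 * m : ℕ) : ℤ) ∣ p - 1 := Int.modEq_iff_dvd.1 hpa.symm
  have h2 := rigidity_prime lio_pm hm h hp (by push_cast at h1; exact h1)
  rw [lio_prime hp] at h2
  norm_num at h2

theorem lio_classes {m : ℕ} (hm : 0 < m) : ∃ r < m,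
    {k : ℕ | k % m = r ∧ Even (ArithmeticFunction.cardFactors (3 * k ^ 2 + 3 * k + 1))}.Infinite ∧
    {k : ℕ | k % m = r ∧ Odd (ArithmeticFunction.cardFactors (3 * k ^ 2 + 3 * k + 1))}.Infinite := by
  classical
  by_contra hcon
  push Not at hcon
  apply lio_not_evPer hm
  -- for each class a bound beyond which the parity is constant
  have h1 : ∀ r < m, ∃ B : ℕ, ∀ k k' : ℕ, B ≤ k → B ≤ k' → k % m = r → k' % m = r →
      lio (3 * k' ^ 2 + 3 * k' + 1) = lio (3 * k ^ 2 + 3 * k + 1) := by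
    intro r hr
    by_cases hE : {k : ℕ | k % m = r ∧
        Even (ArithmeticFunction.cardFactors (3 * k ^ 2 + 3 * k + 1))}.Infinite
    · have hO := hcon r hr hE
      obtain ⟨B, hB⟩ := hO.bddAbove
      have h2 : ∀ k : ℕ, B + 1 ≤ k → k % m = r → lio (3 * k ^ 2 + 3 * k + 1) = 1 := by
        intro k hk hkr
        unfold lio
        apply Even.neg_one_pow
        by_contra hne
        have : k ≤ B := hB ⟨hkr, Nat.not_even_iff_odd.1 hne⟩
        omega
      exact ⟨B + 1, fun k k' hk hk' hkr hkr' => by rw [h2 k hk hkr, h2 k' hk' hkr']⟩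
    · rw [Set.not_infinite] at hE
      obtain ⟨B, hB⟩ := hE.bddAbove
      have h2 : ∀ k : ℕ, B + 1 ≤ k → k % m = r → lio (3 * k ^ 2 + 3 * k + 1) = -1 := by
        intro k hk hkr
        unfold lio
        apply Odd.neg_one_pow
        by_contra hne
        have : k ≤ B := hB ⟨hkr, Nat.not_odd_iff_even.1 hne⟩
        omega
      exact ⟨B + 1, fun k k' hk hk' hkr hkr' => by rw [h2 k hk hkr, h2 k' hk' hkr']⟩
  choose! B hB using h1
  refine ⟨∑ r ∈ Finset.range m, B r, fun k hk => ?_⟩
  have hr : k % m < m := Nat.mod_lt _ hm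
  have hle : B (k % m) ≤ ∑ r ∈ Finset.range m, B r :=
    Finset.single_le_sum (f := B) (fun _ _ => Nat.zero_le _) (Finset.mem_range.2 hr)
  have := hB (k % m) hr k (k + m) (by omega) (by omega) rfl (by simp)
  exact this

end Pool.Agent.H41.Per
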