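import Pool.Agent.H41.Per.Square
import Pool.Agent.H41.Per.Pell

/-!
Rigidity theorem: eventual periodicity of `g(3k²+3k+1)`.
-/

set_option autoImplicit false

namespace Pool.Agent.H41.Per

variable {g : ℕ → ℤ}

/-- Eventual periodicity with period `m` of `g(3k²+3k+1)`. -/
def EvPer (g : ℕ → ℤ) (m : ℕ) : Prop :=
  ∃ K : ℕ, ∀ k : ℕ, K ≤ k → g (3 * (k + m) ^ 2 + 3 * (k + m) + 1) = g (3 * k ^ 2 + 3 * k + 1)

lemma fQ_ne (k : ℤ) : fQ k ≠ 0 := (fQ_pos k).ne'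

lemma gQ_fQ_nat (hg : PM g) (k : ℕ) : gQ g (fQ (k : ℤ)) = g (3 * k ^ 2 + 3 * k + 1) := by
  have h1 : fQ (k : ℤ) = (((3 * k ^ 2 + 3 * k + 1 : ℕ) : ℤ) : ℚ) := by
    unfold fQ; push_cast; ring
  have h2 : (((3 * k ^ 2 + 3 * k + 1 : ℕ) : ℤ)) ≠ 0 := by positivity
  rw [h1, gQ_int hg h2, Int.natAbs_natCast]

lemma gQ_fQ_mul_sq (hg : PM g) {k k' z : ℤ} (hz : z ≠ 0)
    (h : 3 * k' ^ 2 + 3 * k' + 1 = (3 * k ^ 2 + 3 * k + 1) * z ^ 2) :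
    gQ g (fQ k') = gQ g (fQ k) := by
  have hz' : (z : ℚ) ≠ 0 := by exact_mod_cast hz
  have h1 : fQ k' = fQ k * (z : ℚ) ^ 2 := by
    unfold fQ; exact_mod_cast h
  rw [h1, gQ_mul hg (fQ_ne k) (pow_ne_zero 2 hz'), gQ_sq hg hz', mul_one]

lemma evPer_iter {m : ℕ} {K : ℕ}
    (h : ∀ k : ℕ, K ≤ k → g (3 * (k + m) ^ 2 + 3 * (k + m) + 1) = g (3 * k ^ 2 + 3 * k + 1))
    (k : ℕ) (hk : K ≤ k) (j : ℕ) :
    g (3 * (k + m * j) ^ 2 + 3 * (k + m * j) + 1) = g (3 * k ^ 2 + 3 * k + 1) := by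
  induction j with
  | zero => simp
  | succ j ih =>
    have h1 := h (k + m * j) (by omega)
    have h2 : k + m * (j + 1) = (k + m * j) + m := by ring
    rw [h2, h1, ih]

lemma evPer_eq (hg : PM g) {m : ℕ} {K : ℕ}
    (h : ∀ k : ℕ, K ≤ k → g (3 * (k + m) ^ 2 + 3 * (k + m) + 1) = g (3 * k ^ 2 + 3 * k + 1))
    {k₁ k₂ : ℤ} (h1 : (K : ℤ) ≤ k₁) (h2 : (K : ℤ) ≤ k₂) (hle : k₁ ≤ k₂) (hd : (m : ℤ) ∣ k₂ - k₁) :
    gQ g (fQ k₂) = gQ g (fQ k₁) := by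
  obtain ⟨a, ha⟩ := Int.eq_ofNat_of_zero_le (by omega : 0 ≤ k₁)
  obtain ⟨b, hb⟩ := Int.eq_ofNat_of_zero_le (by omega : 0 ≤ k₂)
  subst ha hb
  have hab : a ≤ b := by exact_mod_cast hle
  have hd' : m ∣ b - a := by
    have : (m : ℤ) ∣ ((b - a : ℕ) : ℤ) := by rw [Nat.cast_sub hab]; exact hd
    exact_mod_cast this
  obtain ⟨j, hj⟩ := hd'
  have hb' : b = a + m * j := by omega
  rw [gQ_fQ_nat hg, gQ_fQ_nat hg, hb']
  exact evPer_iter h a (by exact_mod_cast h1) j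

theorem perInt_of_evPer (hg : PM g) {m : ℕ} (hm : 0 < m) (h : EvPer g m) : PerInt g (m : ℤ) := by
  obtain ⟨K, hK⟩ := h
  intro k
  have hm' : (0 : ℤ) < m := by exact_mod_cast hm
  obtain ⟨k₁, z₁, hk₁, hd₁, hz₁, he₁⟩ := pell_large k m hm' K
  obtain ⟨k₂, z₂, hk₂, hd₂, hz₂, he₂⟩ := pell_large (k + m) m hm' K
  rw [← gQ_fQ_mul_sq hg hz₁ he₁, ← gQ_fQ_mul_sq hg hz₂ he₂]
  have hd : (m : ℤ) ∣ k₂ - k₁ := by
    have h1 : k₂ - k₁ = (k₂ - (k + m)) - (k₁ - k) + m := by ring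
    rw [h1]
    exact dvd_add (dvd_sub hd₂ hd₁) (dvd_refl _)
  rcases le_total k₁ k₂ with hle | hle
  · exact evPer_eq hg hK hk₁ hk₂ hle hd
  · exact (evPer_eq hg hK hk₂ hk₁ hle (by
      have : k₁ - k₂ = -(k₂ - k₁) := by ring
      rw [this]; exact (dvd_neg).2 hd)).symm

/-- Rigidity. -/
theorem rigidity (hg : PM g) {m : ℕ} (hm : 0 < m) (h : EvPer g m) {n : ℕ} {r a b : ℤ}
    (hn : (n : ℤ) = a ^ 2 + a * b + b ^ 2) (hcop : Nat.Coprime n (3 * m))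
    (hr : (3 * m : ℤ) ∣ n - r ^ 2) : g n = 1 := by
  have hm0 : (m : ℤ) ≠ 0 := by exact_mod_cast hm.ne'
  have hper := per_of_int hg (perInt_of_evPer hg hm h)
  have hN : nmZ (a - b) b = n := by rw [hn]; simp only [nmZ]; ring
  have hc : IsCoprime (nmZ (a - b) b) (3 * (m : ℤ)) := by
    rw [hN]
    have := Nat.isCoprime_iff_coprime.2 hcop
    push_cast at this
    exact this
  have := square hg hm0 hper (r := r) hc (by rw [hN]; exact hr)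
  rwa [hN, Int.natAbs_natCast] at this

/-- In particular `g(p) = 1` for every prime `p ≡ 1 (mod 3m)`. -/
theorem rigidity_prime (hg : PM g) {m : ℕ} (hm : 0 < m) (h : EvPer g m) {p : ℕ} (hp : p.Prime)
    (h1 : (3 * m : ℤ) ∣ p - 1) : g p = 1 := by
  have h3 : p % 3 = 1 := by
    obtain ⟨e, he⟩ := h1
    have h2 : (p : ℤ) = 1 + 3 * (m * e) := by linarith
    omega
  obtain ⟨a, b, hab⟩ := prime_norm hp h3
  refine rigidity hg hm h (r := 1) hab.symm ?_ (by simpa using h1)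
  have : IsCoprime (p : ℤ) ((3 * m : ℕ) : ℤ) := by
    obtain ⟨e, he⟩ := h1
    refine ⟨1, -e, ?_⟩
    push_cast
    linarith
  exact Nat.isCoprime_iff_coprime.1 this

end Pool.Agent.H41.Per
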