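import Pool.Agent.H41.Per.Main

/-!
Removing the primes `≡ 1 (mod 3)` from the modulus.
-/

set_option autoImplicit false

namespace Pool.Agent.H41.Per

variable {g : ℕ → ℤ}

/-- The polynomial. -/
def fz (k : ℤ) : ℤ := 3 * k ^ 2 + 3 * k + 1

/-- Splitting a number according to a property of its prime factors. -/
lemma split_primes (P : ℕ → Prop) (n : ℕ) (hn : n ≠ 0) :
    ∃ a b : ℕ, n = a * b ∧ (∀ p, p.Prime → p ∣ a → P p) ∧ (∀ p, p.Prime → p ∣ b → ¬ P p) := by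
  classical
  induction n using induction_on_primes with
  | zero => exact absurd rfl hn
  | one =>
    refine ⟨1, 1, rfl, ?_, ?_⟩ <;>
    · intro p hp h
      exact absurd (Nat.dvd_one.1 h) hp.one_lt.ne'
  | prime_mul p n hp ih =>
    have hn' : n ≠ 0 := by rintro rfl; simp at hn
    obtain ⟨a, b, hab, ha, hb⟩ := ih hn'
    by_cases h : P p
    · refine ⟨p * a, b, by rw [hab]; ring, ?_, hb⟩
      intro q hq hqd
      rcases (hq.dvd_mul).1 hqd with h1 | h1
      · rw [(Nat.prime_dvd_prime_iff_eq hq hp).1 h1]; exact h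
      · exact ha q hq h1
    · refine ⟨a, p * b, by rw [hab]; ring, ha, ?_⟩
      intro q hq hqd
      rcases (hq.dvd_mul).1 hqd with h1 | h1
      · rw [(Nat.prime_dvd_prime_iff_eq hq hp).1 h1]; exact h
      · exact hb q hq h1

/-- A prime dividing `f(k)` is `≡ 1 (mod 3)`. -/
lemma prime_dvd_fz {p : ℕ} (hp : p.Prime) {k : ℤ} (h : (p : ℤ) ∣ fz k) : p % 3 = 1 := by
  have := Fact.mk hp
  have h3 : p ≠ 3 := by
    rintro rfl
    obtain ⟨c, hc⟩ := h
    unfold fz at hc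
    push_cast at hc
    omega
  set x : ZMod p := 3 * (k : ZMod p) + 1 with hx
  have h1 : x ^ 2 + x + 1 = 0 := by
    have h2 : ((fz k : ℤ) : ZMod p) = 0 := (ZMod.intCast_zmod_eq_zero_iff_dvd _ _).2 h
    unfold fz at h2
    push_cast at h2
    rw [hx]
    linear_combination 3 * h2
  have h30 : (3 : ZMod p) ≠ 0 := by
    intro h0
    have : ((3 : ℕ) : ZMod p) = 0 := by exact_mod_cast h0
    rw [ZMod.natCast_eq_zero_iff] at this
    exact h3 ((Nat.prime_dvd_prime_iff_eq hp Nat.prime_three).1 this)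
  have hx1 : x ≠ 1 := by
    intro hx1
    rw [hx1] at h1
    apply h30
    linear_combination h1
  have hx3 : x ^ 3 = 1 := by linear_combination (x - 1) * h1
  have hx0 : x ≠ 0 := by
    intro h0; rw [h0] at h1; simp at h1
  have hord : orderOf x = 3 := by
    have : Fact (Nat.Prime 3) := ⟨Nat.prime_three⟩
    exact orderOf_eq_prime hx3 hx1
  have hdiv : orderOf x ∣ p - 1 := ZMod.orderOf_dvd_card_sub_one hx0
  rw [hord] at hdiv
  have := hp.two_le
  omega

/-- Newton iteration for `f`, modulo `Q^N`, staying in a class modulo `m₀ Q`. -/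
lemma newton {Q m₀ k₁ T : ℤ} (hQ3 : IsCoprime Q 3) (hQm : IsCoprime Q m₀) (hk : Q ∣ fz k₁)
    (hT : Q ∣ T) (N : ℕ) : ∃ k : ℤ, m₀ * Q ∣ k - k₁ ∧ Q ^ (N + 1) ∣ fz k - T := by
  induction N with
  | zero =>
    refine ⟨k₁, by simp, ?_⟩
    simpa using dvd_sub hk hT
  | succ N ih =>
    obtain ⟨k, ⟨c, hc⟩, ⟨d, hd⟩⟩ := ih
    -- `f'(k) = 6k + 3` is prime to `Q`
    have hfk : Q ∣ fz k := by
      have h1 : Q ∣ Q ^ (N + 1) * d := (dvd_pow_self Q (Nat.succ_ne_zero N)).mul_right d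
      rw [← hd] at h1
      have := dvd_add h1 hT
      simpa using this
    have hder : IsCoprime Q (m₀ * (6 * k + 3)) := by
      refine hQm.mul_right ?_
      obtain ⟨e, he⟩ := hfk
      obtain ⟨a, b, hab⟩ := hQ3
      -- `(6k+3)² = 12 f(k) - 3`
      have h2 : (6 * k + 3) * (6 * k + 3) = 12 * (Q * e) - 3 := by rw [← he]; unfold fz; ring
      exact ⟨a + 12 * b * e, -b * (6 * k + 3), by linear_combination hab - b * h2⟩
    obtain ⟨a, b, hab⟩ := hder
    -- `s = -b d`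
    refine ⟨k + Q ^ (N + 1) * (m₀ * (-b * d)), ?_, ?_⟩
    · refine ⟨c + Q ^ N * (-b * d), ?_⟩
      linear_combination hc
    · refine ⟨a * d + Q ^ N * (3 * (m₀ * (b * d)) ^ 2), ?_⟩
      have h3 : fz (k + Q ^ (N + 1) * (m₀ * (-b * d))) - T
          = (fz k - T) + Q ^ (N + 1) * (m₀ * (-b * d)) * (6 * k + 3)
            + 3 * (Q ^ (N + 1) * (m₀ * (-b * d))) ^ 2 := by
        unfold fz; ring
      rw [h3, hd]
      linear_combination (-(Q ^ (N + 1) * d)) * hab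

/-- A root of `f` modulo `Q`. -/
lemma exists_root_mod (Q : ℕ) (hQ0 : Q ≠ 0) (hQ : ∀ p, p.Prime → p ∣ Q → p % 3 = 1) :
    ∃ k : ℤ, (Q : ℤ) ∣ fz k := by
  induction Q using Nat.recOnPosPrimePosCoprime with
  | prime_pow p n hp hn =>
    have h3 : p % 3 = 1 := hQ p hp (dvd_pow_self p hn.ne')
    have hpp : Prime (p : ℤ) := Nat.prime_iff_prime_int.1 hp
    have h2 := hp.two_le
    obtain ⟨j, hj⟩ := exists_root hp h3 (m := 1) (by
      intro h
      have := Int.le_of_dvd one_pos h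
      omega)
    -- `f(-j) = 1 - 3 j + 3 j²`
    have hk : (p : ℤ) ∣ fz (-j) := by
      obtain ⟨c, hc⟩ := hj
      exact ⟨c, by unfold fz; linear_combination hc⟩
    have hp3 : IsCoprime (p : ℤ) 3 := ⟨1, -(p / 3 : ℤ), by omega⟩
    obtain ⟨k, -, hk2⟩ := newton (m₀ := 1) hp3 isCoprime_one_right hk (dvd_zero _) (n - 1)
    refine ⟨k, ?_⟩
    have h4 : n - 1 + 1 = n := by omega
    rw [h4, sub_zero] at hk2
    push_cast
    exact hk2
  | zero => exact absurd rfl hQ0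
  | one => exact ⟨0, by simp⟩
  | coprime a b ha hb hab iha ihb =>
    obtain ⟨ka, hka⟩ := iha (by omega) (fun p hp h => hQ p hp (h.mul_right b))
    obtain ⟨kb, hkb⟩ := ihb (by omega) (fun p hp h => hQ p hp (h.mul_left a))
    have hcop : IsCoprime (a : ℤ) (b : ℤ) := Nat.isCoprime_iff_coprime.2 hab
    obtain ⟨u, v, huv⟩ := hcop
    -- `k = ka + u a (kb - ka) = kb - v b (kb - ka)`
    refine ⟨ka + u * a * (kb - ka), ?_⟩
    push_cast
    refine IsCoprime.mul_dvd ⟨u, v, huv⟩ ?_ ?_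
    · obtain ⟨c, hc⟩ := hka
      refine ⟨c + u * (kb - ka) * (6 * ka + 3) + 3 * a * (u * (kb - ka)) ^ 2, ?_⟩
      unfold fz at hc ⊢
      linear_combination hc
    · obtain ⟨c, hc⟩ := hkb
      have h5 : ka + u * a * (kb - ka) = kb + b * (-v * (kb - ka)) := by
        linear_combination (kb - ka) * huv
      rw [h5]
      refine ⟨c + (-v * (kb - ka)) * (6 * kb + 3) + 3 * b * (-v * (kb - ka)) ^ 2, ?_⟩
      unfold fz at hc ⊢
      linear_combination hc

lemma norm_mul {x y c d : ℤ} : (x ^ 2 + x * y + y ^ 2) * (c ^ 2 + c * d + d ^ 2) =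
    (x * c - y * d) ^ 2 + (x * c - y * d) * (x * d + y * c + y * d)
      + (x * d + y * c + y * d) ^ 2 := by ring

lemma norm_mul' {x y c d : ℤ} : (x ^ 2 + x * y + y ^ 2) * (c ^ 2 + c * d + d ^ 2) =
    (x * c + x * d + y * d) ^ 2 + (x * c + x * d + y * d) * (y * c - x * d)
      + (y * c - x * d) ^ 2 := by ring

/-- Being a norm. -/
def IsNm (n : ℤ) : Prop := ∃ a b : ℤ, n = a ^ 2 + a * b + b ^ 2

lemma IsNm.mul {m n : ℤ} (hm : IsNm m) (hn : IsNm n) : IsNm (m * n) := by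
  obtain ⟨a, b, rfl⟩ := hm
  obtain ⟨c, d, rfl⟩ := hn
  exact ⟨_, _, norm_mul⟩

lemma norm_div_aux {p : ℤ} (hp : Prime p) {n A B : ℤ}
    (h : p * (p * n) = A ^ 2 + A * B + B ^ 2) (hB : p ∣ B) : IsNm n := by
  obtain ⟨B', rfl⟩ := hB
  have h1 : p ∣ A * A := ⟨p * n - A * B' - p * B' ^ 2, by linear_combination -h⟩
  have h2 : p ∣ A := by rcases hp.dvd_mul.1 h1 with h | h <;> exact h
  obtain ⟨A', rfl⟩ := h2
  refine ⟨A', B', ?_⟩
  have hpp : p * p ≠ 0 := mul_ne_zero hp.ne_zero hp.ne_zero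
  exact mul_left_cancel₀ hpp (by linear_combination h)

lemma norm_div_prime {p : ℕ} (hp : p.Prime) (h3 : p % 3 = 1) {n : ℤ} (h : IsNm (p * n)) :
    IsNm n := by
  obtain ⟨x, y, hxy⟩ := h
  obtain ⟨c, d, hcd⟩ := prime_norm hp h3
  have hpp : Prime (p : ℤ) := Nat.prime_iff_prime_int.1 hp
  have h1 : (p : ℤ) ∣ (x * d + y * c + y * d) * (y * c - x * d) :=
    ⟨y ^ 2 - d ^ 2 * n, by linear_combination y ^ 2 * hcd + d ^ 2 * hxy⟩
  rcases hpp.dvd_mul.1 h1 with h2 | h2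
  · refine norm_div_aux (A := x * c - y * d) hpp ?_ h2
    rw [← norm_mul, ← hxy, hcd]; ring
  · refine norm_div_aux (A := x * c + x * d + y * d) hpp ?_ h2
    rw [← norm_mul', ← hxy, hcd]; ring

lemma norm_div {Q : ℕ} (hQ0 : Q ≠ 0) (hQ : ∀ p, p.Prime → p ∣ Q → p % 3 = 1) {n : ℤ}
    (h : IsNm (Q * n)) : IsNm n := by
  induction Q using induction_on_primes with
  | zero => exact absurd rfl hQ0
  | one => simpa using h
  | prime_mul p Q hp ih =>
    have hQ0' : Q ≠ 0 := by rintro rfl; simp at hQ0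
    refine ih hQ0' (fun q hq hd => hQ q hq (hd.mul_left p)) ?_
    refine norm_div_prime hp (hQ p hp (dvd_mul_right p Q)) ?_
    have : ((p * Q : ℕ) : ℤ) * n = p * (Q * n) := by push_cast; ring
    rwa [this] at h

lemma isNm_fz (k : ℤ) : IsNm (fz k) := ⟨k + 1, k, by unfold fz; ring⟩

lemma isNm_pow {n : ℤ} (h : IsNm n) (j : ℕ) : IsNm (n ^ j) := by
  induction j with
  | zero => exact ⟨1, 0, by norm_num⟩
  | succ j ih => rw [pow_succ]; exact ih.mul h

lemma coprime_aux {Q M : ℕ} (hQ : ∀ p, p.Prime → p ∣ Q → p % 3 = 1)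
    (hM : ∀ p, p.Prime → p ∣ M → p % 3 ≠ 1) : Nat.Coprime Q M := by
  by_contra h
  rw [Nat.Prime.not_coprime_iff_dvd] at h
  obtain ⟨p, hp, h1, h2⟩ := h
  exact hM p hp h2 (hQ p hp h1)

lemma fz_pos (k : ℤ) : 0 < fz k := f_pos k

lemma fQ_eq (k : ℤ) : fQ k = ((fz k : ℤ) : ℚ) := by unfold fQ fz; push_cast; ring

lemma fz_congr {M k k' : ℤ} (h : M ∣ k - k') : 3 * M ∣ fz k - fz k' := by
  obtain ⟨c, hc⟩ := h
  refine ⟨c * (k + k' + 1), ?_⟩
  unfold fz
  linear_combination 3 * (k + k' + 1) * hc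

/-- Form of the rigidity statement used below. -/
lemma square' (hg : PM g) {m : ℤ} (hm0 : m ≠ 0) (h : PerInt g m) {n s : ℤ} (hn : IsNm n)
    (hcop : IsCoprime n (3 * m)) (hs : 3 * m ∣ n - s ^ 2) : g n.natAbs = 1 := by
  obtain ⟨a, b, hab⟩ := hn
  have hN : nmZ (a - b) b = n := by rw [hab]; simp only [nmZ]; ring
  have := square hg hm0 (per_of_int hg h) (r := s) (c := a - b) (d := b)
    (by rw [hN]; exact hcop) (by rw [hN]; exact hs)
  rwa [hN] at this

end Pool.Agent.H41.Per
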