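import Pool.Agent.H41.Per.Remove

/-!
Removing the primes `≡ 1 (mod 3)` from the modulus: the main step.
-/

set_option autoImplicit false

namespace Pool.Agent.H41.Per

variable {g : ℕ → ℤ}

lemma gI_mul (hg : PM g) {x y : ℤ} (hx : x ≠ 0) (hy : y ≠ 0) :
    gQ g ((x * y : ℤ) : ℚ) = gQ g (x : ℚ) * gQ g (y : ℚ) := by
  push_cast
  exact gQ_mul hg (by exact_mod_cast hx) (by exact_mod_cast hy)

theorem remove (hg : PM g) {m₀ Q : ℕ} (hm₀ : m₀ ≠ 0) (hQ0 : Q ≠ 0)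
    (hm₀p : ∀ p, p.Prime → p ∣ m₀ → p % 3 ≠ 1) (hQ : ∀ p, p.Prime → p ∣ Q → p % 3 = 1)
    (h : PerInt g ((m₀ * Q : ℕ) : ℤ)) {n : ℕ} {r : ℤ} (hn : IsNm n)
    (hcop : Nat.Coprime n (3 * m₀)) (hr : (3 * m₀ : ℤ) ∣ n - r ^ 2) : g n = 1 := by
  have hn0 : n ≠ 0 := by
    rintro rfl
    rw [Nat.coprime_zero_left] at hcop
    omega
  obtain ⟨A, n₁, hAn, hA, hn₁⟩ := split_primes (fun p => p ∣ Q) n hn0
  have hA0 : A ≠ 0 := by rintro rfl; simp at hAn; exact hn0 hAn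
  have hn₁0 : n₁ ≠ 0 := by rintro rfl; simp at hAn; exact hn0 hAn
  -- `Q' = Q A`
  obtain ⟨Q', hQ'⟩ : ∃ Q' : ℕ, Q' = Q * A := ⟨_, rfl⟩
  have hQ'0 : Q' ≠ 0 := by rw [hQ']; exact mul_ne_zero hQ0 hA0
  have hQ'Q : ∀ p, p.Prime → p ∣ Q' → p ∣ Q := by
    intro p hp hd
    rw [hQ'] at hd
    rcases hp.dvd_mul.1 hd with h1 | h1
    · exact h1
    · exact hA p hp h1
  have hQ'1 : ∀ p, p.Prime → p ∣ Q' → p % 3 = 1 := fun p hp hd => hQ p hp (hQ'Q p hp hd)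
  have h3m₀ : ∀ p, p.Prime → p ∣ 3 * m₀ → p % 3 ≠ 1 := by
    intro p hp hd
    rcases hp.dvd_mul.1 hd with h1 | h1
    · rw [(Nat.prime_dvd_prime_iff_eq hp Nat.prime_three).1 h1]; norm_num
    · exact hm₀p p hp h1
  have hcQ3m : IsCoprime (Q' : ℤ) ((3 * m₀ : ℕ) : ℤ) :=
    Nat.isCoprime_iff_coprime.2 (coprime_aux hQ'1 h3m₀)
  have hcQ3m' : IsCoprime (Q' : ℤ) (3 * (m₀ : ℤ)) := by
    have := hcQ3m; push_cast at this; exact this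
  have hcQ3 : IsCoprime (Q' : ℤ) 3 := hcQ3m'.of_mul_right_left
  have hcQm : IsCoprime (Q' : ℤ) (m₀ : ℤ) := hcQ3m'.of_mul_right_right
  have hcn₁ : IsCoprime (n₁ : ℤ) (Q' : ℤ) := by
    rw [Nat.isCoprime_iff_coprime]
    by_contra hne
    rw [Nat.Prime.not_coprime_iff_dvd] at hne
    obtain ⟨p, hp, h1, h2⟩ := hne
    exact hn₁ p hp h1 (hQ'Q p hp h2)
  obtain ⟨k₁, hk₁⟩ := exists_root_mod Q' hQ'0 hQ'1
  obtain ⟨w, y, hwy⟩ := hcn₁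
  -- `w n₁ + y Q' = 1`
  obtain ⟨k, hkm, ⟨e₁, he₁⟩⟩ := newton (m₀ := m₀) (T := (Q' : ℤ) ^ 2) hcQ3 hcQm hk₁
    (dvd_pow_self _ two_ne_zero) 2
  obtain ⟨k', hkm', ⟨e₂, he₂⟩⟩ := newton (m₀ := m₀) (T := (A : ℤ) * (Q' : ℤ) ^ 2 * w) hcQ3 hcQm hk₁
    (((dvd_pow_self _ two_ne_zero).mul_left _).mul_right _) 3
  have hQ'Z : (Q' : ℤ) = Q * A := by rw [hQ']; push_cast; ring
  have hQ'nz : (Q' : ℤ) ≠ 0 := by exact_mod_cast hQ'0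
  have hAnz : (A : ℤ) ≠ 0 := by exact_mod_cast hA0
  obtain ⟨u₁, hu₁⟩ : ∃ u₁ : ℤ, u₁ = 1 + Q' * e₁ := ⟨_, rfl⟩
  obtain ⟨u₂, hu₂⟩ : ∃ u₂ : ℤ, u₂ = w + Q * Q' * e₂ := ⟨_, rfl⟩
  have hf1 : fz k = (Q' : ℤ) ^ 2 * u₁ := by rw [hu₁]; linear_combination he₁
  have hf2 : fz k' = A * (Q' : ℤ) ^ 2 * u₂ := by
    rw [hu₂]
    have : fz k' = A * (Q' : ℤ) ^ 2 * w + (Q' : ℤ) ^ 2 * (Q' : ℤ) * (Q' : ℤ) * e₂ := by
      linear_combination he₂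
    rw [this]
    nth_rewrite 4 [hQ'Z]
    ring
  obtain ⟨n', hn'⟩ : ∃ n' : ℤ, n' = u₁ * u₂ * n₁ := ⟨_, rfl⟩
  have hnZ : (n : ℤ) = A * n₁ := by rw [hAn]; push_cast; ring
  have hprod : fz k * fz k' * n = ((Q' : ℤ) ^ 2 * A) ^ 2 * n' := by
    rw [hf1, hf2, hn', hnZ]; ring
  have hfk0 := (fz_pos k).ne'
  have hfk'0 := (fz_pos k').ne'
  have hnz : (n : ℤ) ≠ 0 := by exact_mod_cast hn0
  have hn'0 : n' ≠ 0 := by
    intro h0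
    rw [h0, mul_zero] at hprod
    exact mul_ne_zero (mul_ne_zero hfk0 hfk'0) hnz hprod
  -- `n'` is a norm
  have hnm : IsNm n' := by
    have h1 : IsNm (fz k * fz k' * n) := ((isNm_fz k).mul (isNm_fz k')).mul hn
    rw [hprod] at h1
    refine norm_div (Q := (Q' ^ 2 * A) ^ 2) (pow_ne_zero _ (mul_ne_zero (pow_ne_zero _ hQ'0) hA0))
      ?_ (by push_cast; exact h1)
    intro p hp hd
    have h2 := hp.dvd_of_dvd_pow hd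
    rcases hp.dvd_mul.1 h2 with h3 | h3
    · exact hQ'1 p hp (hp.dvd_of_dvd_pow h3)
    · exact hQ p hp (hA p hp h3)
  -- coprimality
  have hn'Q : IsCoprime n' (Q' : ℤ) := by
    refine ⟨1, -(-y + e₁ * u₂ * n₁ + Q * e₂ * n₁), ?_⟩
    rw [hn', hu₁, hu₂]
    linear_combination hwy
  have hn'3m : IsCoprime n' (3 * (m₀ : ℤ)) := by
    have h1 : Nat.Coprime n'.natAbs (3 * m₀) := by
      by_contra hne
      rw [Nat.Prime.not_coprime_iff_dvd] at hne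
      obtain ⟨p, hp, h1, h2⟩ := hne
      have hp3 := h3m₀ p hp h2
      have hpp : Prime (p : ℤ) := Nat.prime_iff_prime_int.1 hp
      have h3 : (p : ℤ) ∣ n' := Int.natCast_dvd.2 h1
      rw [hn'] at h3
      rcases hpp.dvd_mul.1 h3 with h4 | h4
      · rcases hpp.dvd_mul.1 h4 with h5 | h5
        · exact hp3 (prime_dvd_fz hp (k := k) (by rw [hf1]; exact h5.mul_left _))
        · exact hp3 (prime_dvd_fz hp (k := k') (by rw [hf2]; exact h5.mul_left _))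
      · have h5 : p ∣ n := by
          rw [hAn]; exact (Int.natCast_dvd_natCast.1 h4).mul_left A
        have h6 := Nat.dvd_gcd h5 h2
        rw [hcop] at h6
        exact hp.one_lt.ne' (Nat.dvd_one.1 h6)
    have h2 : IsCoprime ((n'.natAbs : ℕ) : ℤ) ((3 * m₀ : ℕ) : ℤ) := Nat.isCoprime_iff_coprime.2 h1
    rw [Int.natCast_natAbs] at h2
    push_cast at h2
    rcases abs_choice n' with h3 | h3
    · rw [h3] at h2; exact h2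
    · rw [h3] at h2; exact (IsCoprime.neg_left_iff _ _).1 h2
  -- `n'` is a square modulo `3 m₀`
  have hsq : ∃ s₀ : ℤ, 3 * (m₀ : ℤ) ∣ n' - s₀ ^ 2 := by
    have hc : IsCoprime ((Q' : ℤ) ^ 2 * A) (3 * (m₀ : ℤ)) := by
      refine IsCoprime.mul_left hcQ3m'.pow_left ?_
      have : IsCoprime ((Q : ℤ) * A) (3 * (m₀ : ℤ)) := by rw [← hQ'Z]; exact hcQ3m'
      exact this.of_mul_left_right
    obtain ⟨j, l, hjl⟩ := hc
    obtain ⟨c₁, hc₁⟩ := fz_congr (k := k) (k' := k₁) (M := m₀) (by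
      exact (dvd_mul_right _ _).trans hkm)
    obtain ⟨c₂, hc₂⟩ := fz_congr (k := k') (k' := k₁) (M := m₀) (by
      exact (dvd_mul_right _ _).trans hkm')
    obtain ⟨c₃, hc₃⟩ := hr
    refine ⟨fz k₁ * r * j, ?_⟩
    -- `((Q'^2 A) j)^2 = (1 - l * 3m₀)^2`
    obtain ⟨B, hB⟩ : ∃ B : ℤ, B = (Q' : ℤ) ^ 2 * A := ⟨_, rfl⟩
    rw [← hB] at hjl hprod
    obtain ⟨M, hM⟩ : ∃ M : ℤ, M = 3 * (m₀ : ℤ) := ⟨_, rfl⟩
    rw [← hM] at hjl hc₁ hc₂ hc₃ ⊢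
    have h1 : M ∣ (j * B) ^ 2 * n' - n' := ⟨(-2 * l + l ^ 2 * M) * n', by
      have : j * B = 1 - l * M := by linarith
      rw [this]; ring⟩
    have h2 : M ∣ j ^ 2 * (fz k * fz k' * n) - (fz k₁ * r * j) ^ 2 := by
      refine ⟨j ^ 2 * (c₁ * fz k' * n + fz k₁ * c₂ * n + fz k₁ ^ 2 * c₃), ?_⟩
      linear_combination j ^ 2 * (fz k' * n * hc₁ + fz k₁ * n * hc₂ + fz k₁ ^ 2 * hc₃)
    have h3 : n' - (fz k₁ * r * j) ^ 2 = (j ^ 2 * (fz k * fz k' * n) - (fz k₁ * r * j) ^ 2)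
        - ((j * B) ^ 2 * n' - n') := by
      linear_combination (-j ^ 2) * hprod
    rw [h3]
    exact dvd_sub h2 h1
  obtain ⟨s₀, hs₀⟩ := hsq
  -- combine with `n' ≡ 1 (mod Q')`
  have hn'1 : (Q' : ℤ) ∣ n' - 1 := by
    refine ⟨-y + e₁ * u₂ * n₁ + Q * e₂ * n₁, ?_⟩
    rw [hn', hu₁, hu₂]
    linear_combination hwy
  obtain ⟨a, b, hab⟩ := hcQ3m'
  -- `a Q' + b (3 m₀) = 1`; `s = s₀ a Q' + b (3m₀)`
  obtain ⟨s, hs⟩ : ∃ s : ℤ, s = s₀ * (a * Q') + b * (3 * m₀) := ⟨_, rfl⟩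
  have hs1 : 3 * (m₀ : ℤ) ∣ n' - s ^ 2 := by
    have h1 : 3 * (m₀ : ℤ) ∣ s₀ ^ 2 - s ^ 2 := by
      have : s = s₀ + b * (1 - s₀) * (3 * m₀) := by rw [hs]; linear_combination s₀ * hab
      rw [this]
      exact ⟨-(2 * s₀ * (b * (1 - s₀))) - (b * (1 - s₀)) ^ 2 * (3 * m₀), by ring⟩
    have := dvd_add hs₀ h1
    simpa using this
  have hs2 : (Q' : ℤ) ∣ n' - s ^ 2 := by
    have h1 : (Q' : ℤ) ∣ 1 - s ^ 2 := by
      have : s = 1 + (s₀ - 1) * a * Q' := by rw [hs]; linear_combination hab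
      rw [this]
      exact ⟨-(2 * ((s₀ - 1) * a)) - ((s₀ - 1) * a) ^ 2 * Q', by ring⟩
    have := dvd_add hn'1 h1
    simpa using this
  have hs3 : (Q' : ℤ) * (3 * m₀) ∣ n' - s ^ 2 := IsCoprime.mul_dvd ⟨a, b, hab⟩ hs2 hs1
  have hmdvd : (3 : ℤ) * ((m₀ * Q : ℕ) : ℤ) ∣ (Q' : ℤ) * (3 * m₀) :=
    ⟨A, by rw [hQ'Z]; push_cast; ring⟩
  have hm0 : ((m₀ * Q : ℕ) : ℤ) ≠ 0 := by exact_mod_cast mul_ne_zero hm₀ hQ0
  have hgn' : g n'.natAbs = 1 := by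
    refine square' hg hm0 h hnm ?_ (hmdvd.trans hs3)
    have h1 : IsCoprime n' ((Q' : ℤ) * (3 * m₀)) := hn'Q.mul_right hn'3m
    exact h1.of_isCoprime_of_dvd_right hmdvd
  -- conclusion
  have hper1 : gQ g (fz k : ℚ) = gQ g (fz k₁ : ℚ) := by
    obtain ⟨j, hj⟩ := hkm
    obtain ⟨c, hc⟩ : ∃ c : ℤ, k = k₁ + ((m₀ * Q : ℕ) : ℤ) * c := ⟨A * j, by
      push_cast; rw [hQ'Z] at hj; linear_combination hj⟩
    rw [← fQ_eq, ← fQ_eq, hc]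
    exact h.mul k₁ c
  have hper2 : gQ g (fz k' : ℚ) = gQ g (fz k₁ : ℚ) := by
    obtain ⟨j, hj⟩ := hkm'
    obtain ⟨c, hc⟩ : ∃ c : ℤ, k' = k₁ + ((m₀ * Q : ℕ) : ℤ) * c := ⟨A * j, by
      push_cast; rw [hQ'Z] at hj; linear_combination hj⟩
    rw [← fQ_eq, ← fQ_eq, hc]
    exact h.mul k₁ c
  have hBnz : ((Q' : ℤ) ^ 2 * A) ≠ 0 := mul_ne_zero (pow_ne_zero _ hQ'nz) hAnz
  have h1 : gQ g ((fz k * fz k' * n : ℤ) : ℚ) = gQ g ((((Q' : ℤ) ^ 2 * A) ^ 2 * n' : ℤ) : ℚ) := by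
    rw [hprod]
  rw [gI_mul hg (mul_ne_zero hfk0 hfk'0) hnz, gI_mul hg hfk0 hfk'0, hper1, hper2,
    gI_mul hg (pow_ne_zero _ hBnz) hn'0, gQ_self hg (by exact_mod_cast (fz_pos k₁).ne'),
    gQ_int hg hn'0, hgn', gQ_int hg hnz, Int.natAbs_natCast] at h1
  have h2 : gQ g ((((Q' : ℤ) ^ 2 * A) ^ 2 : ℤ) : ℚ) = 1 := by
    have : ((((Q' : ℤ) ^ 2 * A) ^ 2 : ℤ) : ℚ) = ((((Q' : ℤ) ^ 2 * A : ℤ)) : ℚ) ^ 2 := by push_cast; ring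
    rw [this]
    exact gQ_sq hg (by exact_mod_cast hBnz)
  rw [h2] at h1
  simpa using h1

end Pool.Agent.H41.Per
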