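import Pool.Agent.H41.Per.Hilbert

/-!
`g(n) = 1` for every norm `n` prime to `3m` which is a square modulo `3m`.
-/

set_option autoImplicit false

namespace Pool.Agent.H41.Per

variable {g : ℕ → ℤ}

lemma nm_cast (a b : ℤ) : nm ((a : ℚ), (b : ℚ)) = ((nmZ a b : ℤ) : ℚ) := by
  simp only [nm, nmZ]; push_cast; ring

lemma nmZ_ne_zero {a b M : ℤ} (h3 : (3 : ℤ) ∣ M) (h : IsCoprime (nmZ a b) M) : nmZ a b ≠ 0 := by
  intro h0
  rw [h0, isCoprime_zero_left, Int.isUnit_iff] at h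
  omega

lemma vec_ne_zero {a b M : ℤ} (h3 : (3 : ℤ) ∣ M) (h : IsCoprime (nmZ a b) M) :
    ((a : ℚ), (b : ℚ)) ≠ 0 := by
  intro h0
  rw [Prod.mk_eq_zero] at h0
  apply nmZ_ne_zero h3 h
  have h1 : a = 0 := by exact_mod_cast h0.1
  have h2 : b = 0 := by exact_mod_cast h0.2
  rw [h1, h2]; simp [nmZ]

lemma square_aux (hg : PM g) {m : ℤ} (hm0 : m ≠ 0) (hm : Per g (m : ℚ)) {c d r : ℤ}
    (hcop : IsCoprime (nmZ c d) (3 * m)) (hn : 3 * m ∣ nmZ c d - r ^ 2) (h3 : (3 : ℤ) ∣ r - c) :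
    g (nmZ c d).natAbs = 1 := by
  have h3M : (3 : ℤ) ∣ 3 * m := ⟨m, rfl⟩
  obtain ⟨u, v, huv⟩ := exists_theta (mul_ne_zero three_ne_zero hm0) hcop hn h3
  set w1 := (r + c) * u + 3 * (c + d) * v with hw1
  set w2 := d * u + (r - c) * v with hw2
  -- conjugate of `w`
  set b1 := w1 + 3 * w2 with hb1
  set b2 := -w2 with hb2
  have hbN : nmZ b1 b2 = nmZ w1 w2 := by simp only [nmZ, hb1, hb2]; ring
  have hbcop : IsCoprime (nmZ b1 b2) (3 * m) := by rw [hbN]; exact huv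
  -- `y = x w̄ w̄`
  set s1 := b1 * b1 - 3 * b2 * b2 with hs1
  set s2 := b1 * b2 + b2 * b1 + 3 * b2 * b2 with hs2
  set y1 := c * s1 - 3 * d * s2 with hy1
  set y2 := c * s2 + d * s1 + 3 * d * s2 with hy2
  have hyN : nmZ y1 y2 = nmZ c d * nmZ b1 b2 ^ 2 := by
    simp only [nmZ, hy1, hy2, hs1, hs2]; ring
  have hycop : IsCoprime (nmZ y1 y2) (3 * m) := by
    rw [hyN]; exact IsCoprime.mul_left hcop hbcop.pow_left
  have hmy : m ∣ y2 := by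
    obtain ⟨e, he⟩ := hn
    refine ⟨3 * e * (u * b2 + v * b1 + 3 * v * b2), ?_⟩
    have h1 : y2 = (nmZ c d - r ^ 2) * (u * b2 + v * b1 + 3 * v * b2) := by
      simp only [nmZ, hy2, hs1, hs2, hb1, hb2, hw1, hw2]; ring
    rw [h1, he]; ring
  have hy : sv g ((y1 : ℚ), (y2 : ℚ)) = 1 := triv' hg hm0 hm hycop hmy
  have hx0 := vec_ne_zero h3M hcop
  have hb0 := vec_ne_zero h3M hbcop
  have hv : ((y1 : ℚ), (y2 : ℚ)) =
      vmul ((c : ℚ), (d : ℚ)) (vmul ((b1 : ℚ), (b2 : ℚ)) ((b1 : ℚ), (b2 : ℚ))) := by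
    simp only [vmul, hy1, hy2, hs1, hs2]
    push_cast
    rfl
  rw [hv, sv_mul hg hx0 (vmul_ne_zero hb0 hb0), sv_mul hg hb0 hb0, sv_self hg hb0, mul_one] at hy
  unfold sv at hy
  rw [nm_cast, gQ_int hg (nmZ_ne_zero h3M hcop)] at hy
  exact hy

theorem square (hg : PM g) {m : ℤ} (hm0 : m ≠ 0) (hm : Per g (m : ℚ)) {c d r : ℤ}
    (hcop : IsCoprime (nmZ c d) (3 * m)) (hn : 3 * m ∣ nmZ c d - r ^ 2) :
    g (nmZ c d).natAbs = 1 := by
  have h3M : (3 : ℤ) ∣ 3 * m := ⟨m, rfl⟩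
  have h1 : (3 : ℤ) ∣ (r - c) * (r + c) := by
    obtain ⟨e, he⟩ := hn
    simp only [nmZ] at he
    exact ⟨c * d + d ^ 2 - m * e, by linear_combination -he⟩
  rcases Int.prime_three.dvd_mul.1 h1 with h | h
  · exact square_aux hg hm0 hm hcop hn h
  · refine square_aux (r := -r) hg hm0 hm hcop (by simpa using hn) ?_
    obtain ⟨e, he⟩ := h
    exact ⟨-e, by linarith⟩

end Pool.Agent.H41.Per
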