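import Pool.Agent.H41.Per.Group
import Pool.Agent.H41.Per.Norm

/-!
If `s` is invariant under `y ↦ y + m x`, then `s(a, b) = 1` whenever `m ∣ b`, `a`, `b` are coprime
and `3 ∤ a`; hence `s(c, d) = 1` whenever the norm of `(c, d)` is prime to `3m` and a square
modulo `3m`.
-/

set_option autoImplicit false

namespace Pool.Agent.H41.Per

variable {g : ℕ → ℤ}

lemma sv_scalar (hg : PM g) {x : ℚ} (hx : x ≠ 0) : sv g (x, 0) = 1 := by
  unfold sv
  have : nm (x, 0) = x ^ 2 := by simp [nm]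
  rw [this, gQ_sq hg hx]

lemma triv_aux (hg : PM g) {m : ℤ} (hm0 : m ≠ 0) (hm : Per g (m : ℚ)) {a b : ℤ}
    (hab : IsCoprime a b) (hmb : m ∣ b) (h3 : a % 3 = 1) : sv g ((a : ℚ), (b : ℚ)) = 1 := by
  by_cases hb : b = 0
  · rw [hb]
    have ha : a ≠ 0 := by rintro rfl; omega
    have ha' : (a : ℚ) ≠ 0 := by exact_mod_cast ha
    simpa using sv_scalar hg ha'
  -- a prime `p ≡ a (mod 3 m b)`
  have hq0 : (3 * m * b).natAbs ≠ 0 := by
    rw [Int.natAbs_ne_zero]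
    exact mul_ne_zero (mul_ne_zero (by norm_num) hm0) hb
  have hcm : IsCoprime a m := by
    obtain ⟨c, hc⟩ := hmb
    rw [hc] at hab
    exact IsCoprime.of_mul_right_left hab
  have hc3 : IsCoprime a 3 := ⟨1, -(a / 3), by omega⟩
  have hcop : IsCoprime a ((3 * m * b).natAbs : ℤ) := by
    rw [Int.natCast_natAbs]
    have h1 : IsCoprime a (3 * m * b) := (hc3.mul_right hcm).mul_right hab
    rcases abs_choice (3 * m * b) with h | h
    · rw [h]; exact h1
    · rw [h]; exact h1.neg_right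
  obtain ⟨p, -, hp, hpa⟩ := Nat.forall_exists_prime_gt_and_zmodEq 0 hq0 hcop
  have hdvd : (3 * m * b) ∣ (p : ℤ) - a := by
    have h1 : ((3 * m * b).natAbs : ℤ) ∣ (p : ℤ) - a := (Int.modEq_iff_dvd.1 hpa.symm)
    exact (Int.natAbs_dvd).1 h1
  obtain ⟨s, hs⟩ := hdvd
  have hpmod : p % 3 = 1 := by
    have h1 : (p : ℤ) = a + 3 * (m * b * s) := by linarith
    omega
  have hpm : ¬ (p : ℤ) ∣ m := by
    intro h
    have h1 : (p : ℤ) ∣ a := by
      have : a = p - m * (3 * b * s) := by linarith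
      rw [this]
      exact dvd_sub (dvd_refl _) (h.mul_right _)
    have h2 : IsUnit (p : ℤ) := hcm.isUnit_of_dvd' h1 h
    rw [Int.isUnit_iff] at h2
    have := hp.two_le
    omega
  have hp0 : (p : ℚ) ≠ 0 := by exact_mod_cast hp.ne_zero
  have hb0 : (b : ℚ) ≠ 0 := by exact_mod_cast hb
  have hne : ((a : ℚ), (b : ℚ)) ≠ 0 := iv_ne_zero hab
  have hV := (hm.zmul (-s)).V hg hne
  have e1 : ((a : ℚ) - 3 * ((((-s : ℤ) : ℚ)) * m) * b) = p := by
    have : ((p : ℤ) : ℚ) - a = 3 * m * b * s := by exact_mod_cast hs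
    push_cast at this ⊢
    linarith
  rw [e1] at hV
  rw [← hV]
  obtain ⟨b', hb'⟩ := hmb
  have hper : Per g ((-b' : ℤ) * ((m : ℚ) / p)) := (hm.prime hg hm hp hpmod hpm).zmul (-b')
  have hpb : ((p : ℚ), (b : ℚ)) ≠ 0 := by
    intro h0; rw [Prod.mk_eq_zero] at h0; exact hp0 h0.1
  have h2 := hper _ _ hpb
  rw [← h2]
  have e2 : (b : ℚ) + ((-b' : ℤ) * ((m : ℚ) / p)) * p = 0 := by
    rw [hb']; push_cast; field_simp; ring
  rw [e2]
  exact sv_scalar hg hp0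

lemma triv (hg : PM g) {m : ℤ} (hm0 : m ≠ 0) (hm : Per g (m : ℚ)) {a b : ℤ}
    (hab : IsCoprime a b) (hmb : m ∣ b) (h3 : ¬ (3 : ℤ) ∣ a) : sv g ((a : ℚ), (b : ℚ)) = 1 := by
  have h : a % 3 = 1 ∨ (-a) % 3 = 1 := by omega
  rcases h with h | h
  · exact triv_aux hg hm0 hm hab hmb h
  · have h1 := triv_aux hg hm0 hm (a := -a) (b := -b) hab.neg_neg (by rwa [dvd_neg]) h
    have h2 := sv_neg (g := g) ((a : ℚ), (b : ℚ))
    simp only at h2
    rw [← h2, ← h1]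
    push_cast
    rfl

/-- The same for not necessarily coprime `(a, b)`, with norm prime to `3m`. -/
lemma triv' (hg : PM g) {m : ℤ} (hm0 : m ≠ 0) (hm : Per g (m : ℚ)) {a b : ℤ}
    (hN : IsCoprime (a ^ 2 + 3 * a * b + 3 * b ^ 2) (3 * m)) (hmb : m ∣ b) :
    sv g ((a : ℚ), (b : ℚ)) = 1 := by
  have hab0 : ¬ (a = 0 ∧ b = 0) := by
    rintro ⟨rfl, rfl⟩
    have h1 : IsUnit (3 * m) := by
      have := hN
      simp only [ne_eq, OfNat.ofNat_ne_zero, not_false_eq_true, zero_pow, mul_zero, add_zero] at this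
      exact isCoprime_zero_left.1 this
    have h3 : (3 : ℤ) ∣ 1 := (Dvd.intro m rfl).trans (h1.dvd)
    norm_num at h3
  have hd0 : (Int.gcd a b : ℤ) ≠ 0 := by
    intro h0
    have : Int.gcd a b = 0 := by exact_mod_cast h0
    rw [Int.gcd_eq_zero_iff] at this
    exact hab0 this
  obtain ⟨a', ha'⟩ := Int.gcd_dvd_left a b
  obtain ⟨b', hb'⟩ := Int.gcd_dvd_right a b
  have hgcd : (Int.gcd a b : ℤ) = Int.gcdA a b * a + Int.gcdB a b * b := by
    rw [Int.gcd_eq_gcd_ab]; ring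
  set d : ℤ := (Int.gcd a b : ℤ) with hd
  have hcop : IsCoprime a' b' := by
    refine ⟨Int.gcdA a b, Int.gcdB a b, ?_⟩
    have : d * (Int.gcdA a b * a' + Int.gcdB a b * b') = d * 1 := by
      rw [mul_one]
      calc d * (Int.gcdA a b * a' + Int.gcdB a b * b')
          = Int.gcdA a b * (d * a') + Int.gcdB a b * (d * b') := by ring
        _ = Int.gcdA a b * a + Int.gcdB a b * b := by rw [← ha', ← hb']
        _ = d := hgcd.symm
    exact mul_left_cancel₀ hd0 this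
  have hNd : a ^ 2 + 3 * a * b + 3 * b ^ 2 = d * (d * (a' ^ 2 + 3 * a' * b' + 3 * b' ^ 2)) := by
    rw [ha', hb']; ring
  rw [hNd] at hN
  have hd3m : IsCoprime d (3 * m) := IsCoprime.of_mul_left_left hN
  have hN' : IsCoprime (a' ^ 2 + 3 * a' * b' + 3 * b' ^ 2) (3 * m) :=
    IsCoprime.of_mul_left_right (IsCoprime.of_mul_left_right hN)
  have hmb' : m ∣ b' := by
    rw [hb'] at hmb
    exact (IsCoprime.of_mul_right_right hd3m).symm.dvd_of_dvd_mul_left hmb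
  have h3 : ¬ (3 : ℤ) ∣ a' := by
    rintro ⟨c, hc⟩
    have h1 : (3 : ℤ) ∣ a' ^ 2 + 3 * a' * b' + 3 * b' ^ 2 :=
      ⟨3 * c ^ 2 + a' * b' + b' ^ 2, by rw [hc]; ring⟩
    have h2 := hN'.isUnit_of_dvd' h1 (Dvd.intro m rfl)
    rw [Int.isUnit_iff] at h2
    omega
  have h4 := triv hg hm0 hm hcop hmb' h3
  have hd0' : (d : ℚ) ≠ 0 := by exact_mod_cast hd0
  have h5 := sv_smul hg hd0' (iv_ne_zero hcop)
  simp only at h5
  rw [h4] at h5
  rw [← h5, ha', hb']
  push_cast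
  rfl

end Pool.Agent.H41.Per
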